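import Pool.Agent.H20.MD.Defs
import Mathlib.Topology.ShrinkingLemma
import Mathlib.Topology.Separation.Regular

/-!
# MD Cov: finite covers

* `shrink_on`: shrinking a cover on a closed subset of dimension at most `d`.
* `swell`: a finite closed family can be swelled to an open family of the same order.
* `of_closed`: the dimension by closed refinements.
* `DimLE.closed`: closed shrinkings.
* `transport`: the dimension of a space which is identified with a closed subset by two maps with the same fibres.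
-/

set_option autoImplicit false

open Set

universe u v w

namespace Pool.Agent.H20.MD

theorem fin_le {k : ℕ} (A : Set (Fin k)) {B : Set (Fin k)} (h : A ⊆ B) : A.ncard ≤ B.ncard := ncard_le_ncard h (toFinite _)

theorem shrink_on {S : Type u} [TopologicalSpace S] {A : Set S} (hA : IsClosed A) {d : ℕ} (hd : DimLE A d) {k : ℕ} (U : Fin k → Set S) (hU : ∀ j, IsOpen (U j))
    (hc : (⋃ j, U j) = univ) :
    ∃ V : Fin k → Set S, (∀ j, IsOpen (V j)) ∧ (∀ j, V j ⊆ U j) ∧ (⋃ j, V j) = univ ∧ ∀ x ∈ A, {j | x ∈ V j}.ncard ≤ d + 1 := by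
  obtain ⟨V, hV1, hV2, hV3, hV4⟩ := hd k (fun j => Subtype.val ⁻¹' U j) (fun j => (hU j).preimage continuous_subtype_val) (by
    rw [← preimage_iUnion, hc, preimage_univ])
  choose G hG1 hG2 using fun j => isOpen_induced_iff.1 (hV1 j)
  refine ⟨fun j => U j ∩ (G j ∪ Aᶜ), fun j => (hU j).inter ((hG1 j).union hA.isOpen_compl), fun j => inter_subset_left, ?_, fun x hx => ?_⟩
  · refine eq_univ_of_forall fun x => ?_
    by_cases hx : x ∈ A
    · have h1 : (⟨x, hx⟩ : A) ∈ ⋃ j, V j := by rw [hV3]; exact mem_univ _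
      obtain ⟨j, hj⟩ := mem_iUnion.1 h1
      refine mem_iUnion.2 ⟨j, hV2 j hj, Or.inl ?_⟩
      rw [← hG2 j] at hj
      exact hj
    · have h1 : x ∈ ⋃ j, U j := by rw [hc]; exact mem_univ _
      obtain ⟨j, hj⟩ := mem_iUnion.1 h1
      exact mem_iUnion.2 ⟨j, hj, Or.inr hx⟩
  · refine (fin_le _ ?_).trans (hV4 ⟨x, hx⟩)
    intro j hj
    rcases hj.2 with h1 | h1
    · show (⟨x, hx⟩ : A) ∈ V j
      rw [← hG2 j]
      exact h1
    · exact absurd hx h1

theorem closure_shrink {S : Type u} [TopologicalSpace S] [NormalSpace S] {k : ℕ} (U : Fin k → Set S) (hU : ∀ j, IsOpen (U j)) (hc : (⋃ j, U j) = univ) :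
    ∃ V : Fin k → Set S, (∀ j, IsOpen (V j)) ∧ (⋃ j, V j) = univ ∧ ∀ j, closure (V j) ⊆ U j := by
  obtain ⟨V, h1, h2, h3⟩ := exists_iUnion_eq_closure_subset hU (fun x => toFinite _) hc
  exact ⟨V, h2, h1, h3⟩

theorem swell {S : Type u} [TopologicalSpace S] [NormalSpace S] {k n : ℕ} (G O : Fin k → Set S) (hG : ∀ j, IsClosed (G j)) (hO : ∀ j, IsOpen (O j))
    (hGO : ∀ j, G j ⊆ O j) (hn : ∀ x, {j | x ∈ G j}.ncard ≤ n) :
    ∃ V : Fin k → Set S, (∀ j, IsOpen (V j)) ∧ (∀ j, G j ⊆ V j) ∧ (∀ j, V j ⊆ O j) ∧ ∀ x, {j | x ∈ V j}.ncard ≤ n := by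
  classical
  have key : ∀ J : Finset (Fin k), n < J.card → ∃ W : Fin k → Set S, (∀ j, IsOpen (W j)) ∧ (∀ j, G j ⊆ W j) ∧ (⋂ j ∈ J, W j) = ∅ := by
    intro J hJ
    obtain ⟨v, hv1, hv2, hv3⟩ := closure_shrink (fun j => if j ∈ J then (G j)ᶜ else ∅) (fun j => by
        by_cases h : j ∈ J
        · rw [if_pos h]; exact (hG j).isOpen_compl
        · rw [if_neg h]; exact isOpen_empty) (by
        refine eq_univ_of_forall fun x => ?_
        by_contra hx
        have h1 : (J : Set (Fin k)) ⊆ {j | x ∈ G j} := by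
          intro j hj
          by_contra h2
          refine hx (mem_iUnion.2 ⟨j, ?_⟩)
          rw [if_pos (Finset.mem_coe.1 hj)]
          exact h2
        have h2 := (fin_le _ h1).trans (hn x)
        rw [ncard_coe_finset] at h2
        omega)
    refine ⟨fun j => (closure (v j))ᶜ, fun j => isClosed_closure.isOpen_compl, fun j x hx h1 => ?_, ?_⟩
    · have h2 := hv3 j h1
      by_cases h : j ∈ J
      · rw [if_pos h] at h2
        exact h2 hx
      · rw [if_neg h] at h2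
        exact h2
    · refine eq_empty_of_forall_notMem fun x hx => ?_
      have h1 : x ∈ ⋃ j, v j := by rw [hv2]; exact mem_univ _
      obtain ⟨j, hj⟩ := mem_iUnion.1 h1
      by_cases h : j ∈ J
      · exact (mem_iInter₂.1 hx j h) (subset_closure hj)
      · have h2 := hv3 j (subset_closure hj)
        rw [if_neg h] at h2
        exact h2
  choose W hW1 hW2 hW3 using key
  refine ⟨fun j => O j ∩ ⋂ J : Finset (Fin k), ⋂ h : n < J.card, W J h j, fun j => ?_, fun j => ?_, fun j => inter_subset_left, fun x => ?_⟩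
  · refine (hO j).inter (isOpen_iInter_of_finite fun J => ?_)
    exact isOpen_iInter_of_finite fun h => hW1 J h j
  · exact subset_inter (hGO j) (subset_iInter₂ fun J h => hW2 J h j)
  · by_contra hx
    push Not at hx
    set J : Finset (Fin k) := Finset.univ.filter fun j => x ∈ O j ∩ ⋂ J : Finset (Fin k), ⋂ h : n < J.card, W J h j with hJ
    have h1 : {j | x ∈ O j ∩ ⋂ J : Finset (Fin k), ⋂ h : n < J.card, W J h j} = (J : Set (Fin k)) := by
      ext j
      simp [hJ]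
    have h2 : n < J.card := by
      rw [h1, ncard_coe_finset] at hx
      exact hx
    have h3 : x ∈ ⋂ j ∈ J, W J h2 j := by
      refine mem_iInter₂.2 fun j hj => ?_
      have h4 := (Finset.mem_filter.1 hj).2.2
      exact mem_iInter₂.1 h4 J h2
    rw [hW3 J h2] at h3
    exact h3

/-- the dimension by finite closed refinements -/
theorem of_closed {S : Type u} [TopologicalSpace S] [NormalSpace S] {d : ℕ}
    (h : ∀ (k : ℕ) (U : Fin k → Set S), (∀ j, IsOpen (U j)) → (⋃ j, U j) = univ →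
      ∃ (ι : Type) (_ : Finite ι) (G : ι → Set S) (a : ι → Fin k), (∀ i, IsClosed (G i)) ∧ (∀ i, G i ⊆ U (a i)) ∧ (⋃ i, G i) = univ ∧ ∀ x, {i | x ∈ G i}.ncard ≤ d + 1) :
    DimLE S d := by
  intro k U hU hc
  obtain ⟨ι, hfin, G, a, h1, h2, h3, h4⟩ := h k U hU hc
  obtain ⟨V, hV1, hV2, hV3, hV4⟩ := swell (n := d + 1) (fun j => ⋃ i : {i // a i = j}, G i.1) U (fun j => isClosed_iUnion_of_finite fun i => h1 i.1) hU
    (fun j => iUnion_subset fun i => by
      have := h2 i.1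
      rwa [i.2] at this) (fun x => by
      have h5 : {j | x ∈ ⋃ i : {i // a i = j}, G i.1} ⊆ a '' {i | x ∈ G i} := by
        intro j hj
        obtain ⟨i, hi⟩ := mem_iUnion.1 hj
        exact ⟨i.1, hi, i.2⟩
      exact (fin_le _ h5).trans ((ncard_image_le (toFinite _)).trans (h4 x)))
  refine ⟨V, hV1, hV3, ?_, hV4⟩
  refine eq_univ_of_forall fun x => ?_
  have h5 : x ∈ ⋃ i, G i := by rw [h3]; exact mem_univ _
  obtain ⟨i, hi⟩ := mem_iUnion.1 h5
  exact mem_iUnion.2 ⟨a i, hV2 _ (mem_iUnion.2 ⟨⟨i, rfl⟩, hi⟩)⟩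

/-- closed shrinkings -/
theorem DimLE.closed {S : Type u} [TopologicalSpace S] [NormalSpace S] {d : ℕ} (h : DimLE S d) {k : ℕ} (U : Fin k → Set S) (hU : ∀ j, IsOpen (U j))
    (hc : (⋃ j, U j) = univ) :
    ∃ G : Fin k → Set S, (∀ j, IsClosed (G j)) ∧ (∀ j, G j ⊆ U j) ∧ (⋃ j, G j) = univ ∧ ∀ x, {j | x ∈ G j}.ncard ≤ d + 1 := by
  obtain ⟨V, hV1, hV2, hV3, hV4⟩ := h k U hU hc
  obtain ⟨W, hW1, hW2, hW3⟩ := closure_shrink V hV1 hV3
  refine ⟨fun j => closure (W j), fun j => isClosed_closure, fun j => (hW3 j).trans (hV2 j), ?_, fun x => (fin_le _ fun j hj => hW3 j hj).trans (hV4 x)⟩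
  refine eq_univ_of_forall fun x => ?_
  have h1 : x ∈ ⋃ j, W j := by rw [hW2]; exact mem_univ _
  obtain ⟨j, hj⟩ := mem_iUnion.1 h1
  exact mem_iUnion.2 ⟨j, subset_closure hj⟩

theorem transport {R : Type u} {A : Type v} {C : Type w} [TopologicalSpace R] [CompactSpace R] [TopologicalSpace A] [T2Space A] [TopologicalSpace C] [T2Space C]
    {d : ℕ} (hd : DimLE A d) (α : R → A) (β : R → C) (hα : Continuous α) (hβ : Continuous β) (hs : Function.Surjective β) (h1 : ∀ x y, α x = α y → β x = β y)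
    (h2 : ∀ x y, β x = β y → α x = α y) : DimLE C d := by
  intro k U hU hc
  rcases Nat.eq_zero_or_pos k with hk | hk
  · subst hk
    refine ⟨U, hU, fun j => subset_rfl, hc, fun x => ?_⟩
    have : {j : Fin 0 | x ∈ U j} = ∅ := eq_empty_of_forall_notMem fun j => j.elim0
    rw [this, ncard_empty]
    exact Nat.zero_le _
  have hαc : IsClosedMap α := hα.isClosedMap
  have hβc : IsClosedMap β := hβ.isClosedMap
  have e1 : ∀ j x, α x ∈ (α '' (β ⁻¹' (U j)ᶜ))ᶜ ↔ β x ∈ U j := by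
    intro j x
    constructor
    · intro h
      by_contra h3
      exact h ⟨x, h3, rfl⟩
    · rintro h ⟨y, hy, hyx⟩
      exact hy ((h1 y x hyx) ▸ h)
  obtain ⟨V, hV1, hV2, hV3, hV4⟩ := hd k (fun j => (α '' (β ⁻¹' (U j)ᶜ))ᶜ) (fun j => by
      have h3 : IsClosed (β ⁻¹' (U j)ᶜ) := (hU j).isClosed_compl.preimage hβ
      exact (hαc _ h3).isOpen_compl) (by
      refine eq_univ_of_forall fun y => ?_
      by_cases hy : y ∈ range α
      · obtain ⟨x, rfl⟩ := hy
        have h3 : β x ∈ ⋃ j, U j := by rw [hc]; exact mem_univ _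
        obtain ⟨j, hj⟩ := mem_iUnion.1 h3
        exact mem_iUnion.2 ⟨j, (e1 j x).2 hj⟩
      · refine mem_iUnion.2 ⟨⟨0, hk⟩, ?_⟩
        rintro ⟨x, -, hx⟩
        exact hy ⟨x, hx⟩)
  have e2 : ∀ j x, β x ∈ (β '' (α ⁻¹' (V j)ᶜ))ᶜ ↔ α x ∈ V j := by
    intro j x
    constructor
    · intro h
      by_contra h3
      exact h ⟨x, h3, rfl⟩
    · rintro h ⟨y, hy, hyx⟩
      exact hy ((h2 y x hyx) ▸ h)
  refine ⟨fun j => (β '' (α ⁻¹' (V j)ᶜ))ᶜ, fun j => ?_, fun j c hcj => ?_, ?_, fun c => ?_⟩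
  · have h3 : IsClosed (α ⁻¹' (V j)ᶜ) := (hV1 j).isClosed_compl.preimage hα
    exact (hβc _ h3).isOpen_compl
  · obtain ⟨x, rfl⟩ := hs c
    exact (e1 j x).1 (hV2 j ((e2 j x).1 hcj))
  · refine eq_univ_of_forall fun c => ?_
    obtain ⟨x, rfl⟩ := hs c
    have h3 : α x ∈ ⋃ j, V j := by rw [hV3]; exact mem_univ _
    obtain ⟨j, hj⟩ := mem_iUnion.1 h3
    exact mem_iUnion.2 ⟨j, (e2 j x).2 hj⟩
  · obtain ⟨x, rfl⟩ := hs c
    exact (fin_le _ fun j hj => (e2 j x).1 hj).trans (hV4 (α x))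

end Pool.Agent.H20.MD
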