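import Pool.Agent.H20.MD.Cov
import Mathlib.Topology.UnitInterval
import Mathlib.Algebra.Order.Floor.Semiring
import Mathlib.Topology.MetricSpace.Basic

/-!
# MD Prod: the product with an interval
-/

set_option autoImplicit false

open Set Topology

universe u v w

namespace Pool.Agent.H20.MD

private theorem Prod_min {α : Type*} (T : Finset α) (ρ : α → ℝ) (h : ∀ t, 0 < ρ t) : ∃ δ : ℝ, 0 < δ ∧ ∀ t ∈ T, δ ≤ ρ t := by
  classical
  induction T using Finset.induction_on with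
  | empty => exact ⟨1, one_pos, fun t ht => absurd ht (Finset.notMem_empty t)⟩
  | insert a T ha ih =>
    obtain ⟨δ, hδ, h1⟩ := ih
    refine ⟨min δ (ρ a), lt_min hδ (h a), fun t ht => ?_⟩
    rcases Finset.mem_insert.1 ht with rfl | ht
    · exact min_le_right _ _
    · exact (min_le_left _ _).trans (h1 t ht)

private theorem Prod_tube {S : Type u} [TopologicalSpace S] {k : ℕ} (U : Fin k → Set (S × unitInterval)) (hU : ∀ j, IsOpen (U j)) (hc : (⋃ j, U j) = univ) (s : S) :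
    ∃ (W : Set S) (δ : ℝ), IsOpen W ∧ s ∈ W ∧ 0 < δ ∧ ∀ t : unitInterval, ∃ j, ∀ s' ∈ W, ∀ t' : unitInterval, dist t' t < δ → (s', t') ∈ U j := by
  have h1 : ∀ t : unitInterval, ∃ (j : Fin k) (A : Set S) (ρ : ℝ), IsOpen A ∧ s ∈ A ∧ 0 < ρ ∧ ∀ s' ∈ A, ∀ t' : unitInterval, dist t' t < 2 * ρ → (s', t') ∈ U j := by
    intro t
    have h2 : (s, t) ∈ ⋃ j, U j := by rw [hc]; exact mem_univ _
    obtain ⟨j, hj⟩ := mem_iUnion.1 h2
    obtain ⟨A, B, hA, hB, hsA, htB, hAB⟩ := isOpen_prod_iff.1 (hU j) s t hj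
    obtain ⟨ρ, hρ, hρB⟩ := Metric.isOpen_iff.1 hB t htB
    refine ⟨j, A, ρ / 2, hA, hsA, half_pos hρ, fun s' hs' t' ht' => hAB ⟨hs', hρB ?_⟩⟩
    rw [Metric.mem_ball]
    linarith
  choose j A ρ hA hsA hρ hU' using h1
  obtain ⟨T, hT⟩ := isCompact_univ.elim_nhds_subcover (fun t : unitInterval => Metric.ball t (ρ t)) (fun t _ => Metric.ball_mem_nhds t (hρ t))
  obtain ⟨δ, hδ, hδT⟩ := Prod_min T ρ hρ
  refine ⟨⋂ t ∈ T, A t, δ, isOpen_biInter_finset fun t _ => hA t, mem_iInter₂.2 fun t _ => hsA t, hδ, fun t => ?_⟩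
  obtain ⟨c, hc1, hc2⟩ := mem_iUnion₂.1 (hT.2 (mem_univ t))
  refine ⟨j c, fun s' hs' t' ht' => hU' c s' (mem_iInter₂.1 hs' c hc1) t' ?_⟩
  rw [Metric.mem_ball] at hc2
  have h3 := dist_triangle t' t c
  have h4 := hδT c hc1
  linarith

private theorem Prod_cover {S : Type u} [TopologicalSpace S] [CompactSpace S] {k : ℕ} (U : Fin k → Set (S × unitInterval)) (hU : ∀ j, IsOpen (U j))
    (hc : (⋃ j, U j) = univ) :
    ∃ (r : ℕ) (W : Fin r → Set S) (δ : ℝ), (∀ a, IsOpen (W a)) ∧ (⋃ a, W a) = univ ∧ 0 < δ ∧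
      ∀ a, ∀ t : unitInterval, ∃ j, ∀ s' ∈ W a, ∀ t' : unitInterval, dist t' t < δ → (s', t') ∈ U j := by
  choose W δ hW hsW hδ hWU using Prod_tube U hU hc
  obtain ⟨T, hT⟩ := isCompact_univ.elim_nhds_subcover W (fun s _ => (hW s).mem_nhds (hsW s))
  obtain ⟨δ', hδ', hδT⟩ := Prod_min T δ hδ
  refine ⟨T.card, fun a => W (T.equivFin.symm a).1, δ', fun a => hW _, ?_, hδ', fun a t => ?_⟩
  · refine eq_univ_of_forall fun s => ?_
    obtain ⟨c, hc1, hc2⟩ := mem_iUnion₂.1 (hT.2 (mem_univ s))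
    refine mem_iUnion.2 ⟨T.equivFin ⟨c, hc1⟩, ?_⟩
    rw [Equiv.symm_apply_apply]
    exact hc2
  · obtain ⟨j, hj⟩ := hWU (T.equivFin.symm a).1 t
    exact ⟨j, fun s' hs' t' ht' => hj s' hs' t' (ht'.trans_le (hδT _ (T.equivFin.symm a).2))⟩

/-- the condition that `t` lies in the closed interval number `l` of the partition number `a` -/
private def Prod_P (r N a l : ℕ) (t : ℝ) : Prop := ((l : ℝ) - 1) * (r + 1) + a + 1 ≤ N * (r + 1) * t ∧ N * (r + 1) * t ≤ l * (r + 1) + a + 1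

private theorem Prod_exists {r N a : ℕ} (ha : a < r) {t : ℝ} (h0 : 0 ≤ t) (h1 : t ≤ 1) : ∃ l, l ≤ N ∧ Prod_P r N a l t := by
  have hr : (0 : ℝ) < r + 1 := by positivity
  have har : (a : ℝ) + 1 ≤ r := by exact_mod_cast ha
  set x : ℝ := (N * (r + 1) * t - a - 1) / (r + 1) with hx
  have ex : x * (r + 1) = N * (r + 1) * t - a - 1 := by rw [hx]; field_simp
  have hxN : x ≤ N := by
    rw [hx, div_le_iff₀ hr]
    have h2 : (N : ℝ) * (r + 1) * t ≤ N * (r + 1) * 1 := mul_le_mul_of_nonneg_left h1 (by positivity)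
    have h3 : (0 : ℝ) ≤ a := Nat.cast_nonneg a
    linarith
  refine ⟨⌈x⌉₊, Nat.ceil_le.2 hxN, ?_, ?_⟩
  · rcases Nat.eq_zero_or_pos ⌈x⌉₊ with h | h
    · rw [h]
      have h2 : (0 : ℝ) ≤ N * (r + 1) * t := by positivity
      push_cast
      linarith
    · have h2 : (⌈x⌉₊ : ℝ) - 1 < x := by
        have h3 : ⌈x⌉₊ - 1 < ⌈x⌉₊ := by omega
        have h4 := Nat.lt_ceil.1 h3
        rw [Nat.cast_sub h, Nat.cast_one] at h4
        exact h4
      have h3 : ((⌈x⌉₊ : ℝ) - 1) * (r + 1) ≤ x * (r + 1) := mul_le_mul_of_nonneg_right h2.le hr.le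
      linarith
  · have h3 : x * (r + 1) ≤ (⌈x⌉₊ : ℝ) * (r + 1) := mul_le_mul_of_nonneg_right (Nat.le_ceil x) hr.le
    linarith

private theorem Prod_special {r N a l : ℕ} {t : ℝ} (h : Prod_P r N a l t) (hl : l ≠ ⌈(N * (r + 1) * t - a - 1) / ((r : ℝ) + 1)⌉₊) :
    1 ≤ l ∧ ((l - 1) * (r + 1) + a + 1 : ℕ) = (N * (r + 1) * t : ℝ) := by
  have hr : (0 : ℝ) < r + 1 := by positivity
  set x : ℝ := (N * (r + 1) * t - a - 1) / (r + 1) with hx
  have ex : x * (r + 1) = N * (r + 1) * t - a - 1 := by rw [hx]; field_simp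
  obtain ⟨h1, h2⟩ := h
  have h3 : x ≤ l := by
    rw [hx, div_le_iff₀ hr]
    linarith
  have h4 : (l : ℝ) - 1 ≤ x := by
    rw [hx, le_div_iff₀ hr]
    linarith
  have h5 : ⌈x⌉₊ ≤ l := Nat.ceil_le.2 h3
  have h6 : ⌈x⌉₊ + 1 ≤ l := by omega
  have h7 : (⌈x⌉₊ : ℝ) + 1 ≤ l := by exact_mod_cast h6
  have h8 := Nat.le_ceil x
  have h9 : x = (l : ℝ) - 1 := le_antisymm (by linarith) h4
  refine ⟨by omega, ?_⟩
  have h10 : 1 ≤ l := by omega
  push_cast [Nat.cast_sub h10]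
  rw [h9] at ex
  linarith

/-- the product with an interval -/
theorem DimLE.prod {S : Type u} [TopologicalSpace S] [CompactSpace S] [T2Space S] {e : ℕ} (h : DimLE S e) : DimLE (S × unitInterval) (e + 1) := by
  refine of_closed fun k U hU hc => ?_
  rcases Nat.eq_zero_or_pos k with hk | hk
  · subst hk
    refine ⟨Fin 0, inferInstance, fun _ => ∅, fun i => i, fun i => isClosed_empty, fun i => empty_subset _, ?_, fun x => ?_⟩
    · rw [← hc]
      refine subset_antisymm ?_ ?_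
      · intro x hx
        obtain ⟨i, -⟩ := mem_iUnion.1 hx
        exact i.elim0
      · intro x hx
        obtain ⟨i, -⟩ := mem_iUnion.1 hx
        exact i.elim0
    · have : {i : Fin 0 | x ∈ (∅ : Set (S × unitInterval))} = ∅ := eq_empty_of_forall_notMem fun j => j.elim0
      rw [this, ncard_empty]
      exact Nat.zero_le _
  obtain ⟨r, W, δ, hW, hWc, hδ, hWU⟩ := Prod_cover U hU hc
  obtain ⟨G, hG1, hG2, hG3, hG4⟩ := h.closed W hW hWc
  obtain ⟨N, hN⟩ := exists_nat_gt (1 / δ)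
  have hN0 : (0 : ℝ) < N := lt_trans (by positivity) hN
  have hNδ : 1 / (N : ℝ) < δ := by
    rw [div_lt_iff₀ hN0]
    rw [div_lt_iff₀ hδ] at hN
    linarith
  have hr : (0 : ℝ) < r + 1 := by positivity
  have key : ∀ i : Fin r × Fin (N + 1), ∃ j, {p : S × unitInterval | p.1 ∈ G i.1 ∧ Prod_P r N i.1 i.2 p.2} ⊆ U j := by
    rintro ⟨a, l⟩
    by_cases hne : ∃ t₀ : unitInterval, Prod_P r N a l t₀
    · obtain ⟨t₀, h1, h2⟩ := hne
      obtain ⟨j, hj⟩ := hWU a t₀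
      refine ⟨j, fun p hp => hj p.1 (hG2 a hp.1) p.2 ?_⟩
      obtain ⟨h3, h4⟩ := hp.2
      have h5 : |(p.2 : ℝ) - t₀| ≤ 1 / N := by
        rw [abs_le]
        have e1 : (N : ℝ) * (r + 1) * (1 / N) = r + 1 := by field_simp
        have h0 : (0 : ℝ) < N * (r + 1) := by positivity
        constructor
        · refine le_of_mul_le_mul_left ?_ h0
          rw [mul_sub, mul_neg, e1]
          linarith
        · refine le_of_mul_le_mul_left ?_ h0
          rw [mul_sub, e1]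
          linarith
      rw [Subtype.dist_eq, Real.dist_eq]
      exact h5.trans_lt hNδ
    · refine ⟨⟨0, hk⟩, fun p hp => ?_⟩
      exact absurd ⟨p.2, hp.2⟩ hne
  choose b hb using key
  refine ⟨Fin r × Fin (N + 1), inferInstance, fun i => {p | p.1 ∈ G i.1 ∧ Prod_P r N i.1 i.2 p.2}, b, fun i => ?_, hb, ?_, fun p => ?_⟩
  · refine ((hG1 i.1).preimage continuous_fst).inter ?_
    have c1 : Continuous fun p : S × unitInterval => (N : ℝ) * (r + 1) * (p.2 : ℝ) := continuous_const.mul (continuous_subtype_val.comp continuous_snd)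
    exact (isClosed_le continuous_const c1).inter (isClosed_le c1 continuous_const)
  · refine eq_univ_of_forall fun p => ?_
    have h1 : p.1 ∈ ⋃ a, G a := by rw [hG3]; exact mem_univ _
    obtain ⟨a, ha⟩ := mem_iUnion.1 h1
    obtain ⟨l, hl, hP⟩ := Prod_exists (N := N) a.2 p.2.2.1 p.2.2.2
    exact mem_iUnion.2 ⟨(a, ⟨l, by omega⟩), ha, hP⟩
  · let P1 : Set (Fin r × Fin (N + 1)) :=
      {i | (p.1 ∈ G i.1 ∧ Prod_P r N i.1 i.2 p.2) ∧ (i.2 : ℕ) = ⌈(N * (r + 1) * (p.2 : ℝ) - ((i.1 : ℕ) : ℝ) - 1) / ((r : ℝ) + 1)⌉₊}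
    let P2 : Set (Fin r × Fin (N + 1)) :=
      {i | (p.1 ∈ G i.1 ∧ Prod_P r N i.1 i.2 p.2) ∧ (i.2 : ℕ) ≠ ⌈(N * (r + 1) * (p.2 : ℝ) - ((i.1 : ℕ) : ℝ) - 1) / ((r : ℝ) + 1)⌉₊}
    have e1 : {i : Fin r × Fin (N + 1) | p ∈ {p : S × unitInterval | p.1 ∈ G i.1 ∧ Prod_P r N i.1 i.2 p.2}} ⊆ P1 ∪ P2 := by
      intro i hi
      by_cases h1 : (i.2 : ℕ) = ⌈(N * (r + 1) * (p.2 : ℝ) - ((i.1 : ℕ) : ℝ) - 1) / ((r : ℝ) + 1)⌉₊
      · exact Or.inl ⟨hi, h1⟩
      · exact Or.inr ⟨hi, h1⟩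
    have e2 : P1.ncard ≤ e + 1 := by
      refine (ncard_le_ncard_of_injOn Prod.fst (fun i hi => ?_) ?_ (toFinite _)).trans (hG4 p.1)
      · exact hi.1.1
      · intro i hi i' hi' hii
        have h1 := hi.2
        rw [hii] at h1
        exact Prod.ext hii (Fin.ext (h1.trans hi'.2.symm))
    have e3 : P2.ncard ≤ 1 := by
      rw [ncard_le_one (toFinite _)]
      intro i hi i' hi'
      obtain ⟨h1, h2⟩ := Prod_special hi.1.2 hi.2
      obtain ⟨h3, h4⟩ := Prod_special hi'.1.2 hi'.2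
      have h5 : ((i.2 : ℕ) - 1) * (r + 1) + i.1 + 1 = ((i'.2 : ℕ) - 1) * (r + 1) + i'.1 + 1 := by
        have h6 := h2.trans h4.symm
        exact_mod_cast h6
      have h6 : (i.1 : ℕ) + (r + 1) * ((i.2 : ℕ) - 1) = i'.1 + (r + 1) * ((i'.2 : ℕ) - 1) := by
        rw [mul_comm (r + 1), mul_comm (r + 1)]
        omega
      have hi1 : (i.1 : ℕ) < r + 1 := by have := i.1.2; omega
      have hi2 : (i'.1 : ℕ) < r + 1 := by have := i'.1.2; omega
      have h7 : (i.1 : ℕ) = i'.1 := by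
        have h8 := congrArg (· % (r + 1)) h6
        simp only [Nat.add_mul_mod_self_left] at h8
        rwa [Nat.mod_eq_of_lt hi1, Nat.mod_eq_of_lt hi2] at h8
      have h8 : (r + 1) * ((i.2 : ℕ) - 1) = (r + 1) * ((i'.2 : ℕ) - 1) := by omega
      have h9 : (i.2 : ℕ) - 1 = (i'.2 : ℕ) - 1 := Nat.eq_of_mul_eq_mul_left (by omega) h8
      exact Prod.ext (Fin.ext h7) (Fin.ext (by omega))
    calc _ ≤ (P1 ∪ P2).ncard := ncard_le_ncard e1 (toFinite _)
      _ ≤ P1.ncard + P2.ncard := ncard_union_le _ _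
      _ ≤ e + 1 + 1 := by omega

end Pool.Agent.H20.MD
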