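import Pool.Agent.H20.MD.Sum
import Pool.Agent.H20.MD.Prod
import Mathlib.Topology.TietzeExtension
import Mathlib.Topology.UrysohnsLemma
import Mathlib.Topology.ContinuousMap.Basic

/-!
# MD Dat: modifications, the weights of the join
-/

set_option autoImplicit false

open Set Topology

namespace Pool.Agent.H20.MD

/-- A modification `q : M' → M` over the closed set `Z`, a map `f : M' → B`, a finite closed cover `E` of the exceptional set and continuous maps `g i : E i → Q`. -/
structure Modif (M M' B Q : Type) [TopologicalSpace M] [TopologicalSpace M'] [TopologicalSpace B] [TopologicalSpace Q] (m : ℕ) where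
  /-- the modification -/
  q : M' → M
  /-- the map to `B` -/
  f : M' → B
  /-- the centre -/
  Z : Set M
  /-- the pieces of the exceptional set -/
  E : Fin m → Set M'
  /-- the maps of the pieces to `Q` -/
  g : Fin m → M' → Q
  q_cont : Continuous q
  q_surj : Function.Surjective q
  f_cont : Continuous f
  Z_closed : IsClosed Z
  q_inj : ∀ x y, q x = q y → q x ∉ Z → x = y
  E_closed : ∀ i, IsClosed (E i)
  E_union : (⋃ i, E i) = q ⁻¹' Z
  g_cont : ∀ i, ContinuousOn (g i) (E i)

namespace Modif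

variable {M M' B Q : Type} [TopologicalSpace M] [TopologicalSpace M'] [TopologicalSpace B] [TopologicalSpace Q] {m : ℕ}

/-- the set of the points which lie on at least two pieces -/
def D (S : Modif M M' B Q m) : Set M' := {x | ∃ i j, i ≠ j ∧ x ∈ S.E i ∧ x ∈ S.E j}

theorem D_closed (S : Modif M M' B Q m) : IsClosed S.D := by
  have h1 : S.D = ⋃ i, ⋃ j, {x | i ≠ j ∧ x ∈ S.E i ∧ x ∈ S.E j} := by
    ext x
    simp [D]
  rw [h1]
  refine isClosed_iUnion_of_finite fun i => isClosed_iUnion_of_finite fun j => ?_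
  by_cases h : i = j
  · have h2 : {x | i ≠ j ∧ x ∈ S.E i ∧ x ∈ S.E j} = ∅ := eq_empty_of_forall_notMem fun x hx => hx.1 h
    rw [h2]
    exact isClosed_empty
  · have h2 : {x | i ≠ j ∧ x ∈ S.E i ∧ x ∈ S.E j} = S.E i ∩ S.E j := by
      ext x
      simp [h]
    rw [h2]
    exact (S.E_closed i).inter (S.E_closed j)

theorem mem_D (S : Modif M M' B Q m) {i j : Fin m} (h : i ≠ j) {x : M'} (hi : x ∈ S.E i) (hj : x ∈ S.E j) : x ∈ S.D := ⟨i, j, h, hi, hj⟩

end Modif

/-- the weight of the point of `B` -/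
noncomputable def lamB (s t : ℝ) : ℝ := (1 - s) * t + s * max (2 * t - 1) 0

/-- the weight of the point of `M` -/
noncomputable def lamZ (s t : ℝ) : ℝ := (1 - s) * (1 - t) + s * max (1 - 2 * t) 0

/-- the weight of the point of `Q` -/
noncomputable def lamQ (s t : ℝ) : ℝ := (1 - |2 * t - 1|) * s

theorem lamB_sub_lamZ (s t : ℝ) : lamB s t - lamZ s t = 2 * t - 1 := by
  unfold lamB lamZ
  rcases le_total (2 * t - 1) 0 with h | h
  · rw [max_eq_right h, max_eq_left (by linarith)]
    ring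
  · rw [max_eq_left h, max_eq_right (by linarith)]
    ring

theorem lamB_nonneg {s t : ℝ} (hs : 0 ≤ s) (hs1 : s ≤ 1) (ht : 0 ≤ t) : 0 ≤ lamB s t :=
  add_nonneg (mul_nonneg (by linarith) ht) (mul_nonneg hs (le_max_right _ _))

theorem lamZ_nonneg {s t : ℝ} (hs : 0 ≤ s) (hs1 : s ≤ 1) (ht : t ≤ 1) : 0 ≤ lamZ s t :=
  add_nonneg (mul_nonneg (by linarith) (by linarith)) (mul_nonneg hs (le_max_right _ _))

/-- a point of the space of the coordinates of the join -/
abbrev JJ (M B Q : Type) [TopologicalSpace M] [TopologicalSpace B] [TopologicalSpace Q] : Type := (C(B, ℝ) ⊕ (C(Q, ℝ) ⊕ C(M, ℝ))) → ℝ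

section Psi

variable {M B Q : Type} [TopologicalSpace M] [TopologicalSpace B] [TopologicalSpace Q]

/-- the point of the join with the given weights -/
noncomputable def Psi (s t : ℝ) (b : B) (c : Q) (z : M) : JJ M B Q :=
  Sum.elim (fun φ => lamB s t * φ b) (Sum.elim (fun φ => lamQ s t * φ c) (fun φ => lamZ s t * φ z))

theorem sep {S : Type} [TopologicalSpace S] [CompactSpace S] [T2Space S] {a b : S} (h : ∀ φ : C(S, ℝ), φ a = φ b) : a = b := by
  by_contra hab
  obtain ⟨φ, h0, h1, -⟩ := exists_continuous_zero_one_of_isClosed (isClosed_singleton (x := a)) (isClosed_singleton (x := b)) (by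
    rw [disjoint_singleton]
    exact hab)
  have h2 := h φ
  rw [h0 (mem_singleton a), h1 (mem_singleton b)] at h2
  simp at h2

variable [CompactSpace M] [T2Space M] [CompactSpace B] [T2Space B] [CompactSpace Q] [T2Space Q]

theorem Psi_inj {s t s' t' : ℝ} {b b' : B} {c c' : Q} {z z' : M} (h : Psi s t b c z = Psi s' t' b' c' z') :
    t = t' ∧ lamQ s t = lamQ s' t' ∧ lamB s t = lamB s' t' ∧ lamZ s t = lamZ s' t' ∧ (lamB s t ≠ 0 → b = b') ∧ (lamQ s t ≠ 0 → c = c') ∧
      (lamZ s t ≠ 0 → z = z') := by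
  have hB : ∀ φ : C(B, ℝ), lamB s t * φ b = lamB s' t' * φ b' := fun φ => congrFun h (Sum.inl φ)
  have hQ : ∀ φ : C(Q, ℝ), lamQ s t * φ c = lamQ s' t' * φ c' := fun φ => congrFun h (Sum.inr (Sum.inl φ))
  have hZ : ∀ φ : C(M, ℝ), lamZ s t * φ z = lamZ s' t' * φ z' := fun φ => congrFun h (Sum.inr (Sum.inr φ))
  have hB1 := hB 1
  have hQ1 := hQ 1
  have hZ1 := hZ 1
  simp only [ContinuousMap.one_apply, mul_one] at hB1 hQ1 hZ1
  have h1 := lamB_sub_lamZ s t
  have h2 := lamB_sub_lamZ s' t'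
  rw [← hB1, ← hZ1] at h2
  refine ⟨by linarith, hQ1, hB1, hZ1, fun h0 => sep fun φ => ?_, fun h0 => sep fun φ => ?_, fun h0 => sep fun φ => ?_⟩
  · have h3 := hB φ
    rw [← hB1] at h3
    exact mul_left_cancel₀ h0 h3
  · have h3 := hQ φ
    rw [← hQ1] at h3
    exact mul_left_cancel₀ h0 h3
  · have h3 := hZ φ
    rw [← hZ1] at h3
    exact mul_left_cancel₀ h0 h3

end Psi

end Pool.Agent.H20.MD
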