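import Mathlib.Topology.MetricSpace.Isometry
import Mathlib.Topology.Compactness.Compact
import Mathlib.Data.Set.Card
import Mathlib.Algebra.BigOperators.Finprod

/-!
# MD Defs: covering dimension, macroscopic dimension, small sets

`DimLE S d`: the covering dimension of the (normal) space `S` is at most `d`.
`MacroDimLE X k`: the macroscopic dimension of the metric space `X` is at most `k`.
`IsCov p`: `p : X → M` is a regular covering with isometric deck transformations.
`Small p V`: the preimage of `V` under the covering is a disjoint union of uniformly bounded open sets.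
-/

set_option autoImplicit false

universe u v

namespace Pool.Agent.H20.MD

/-- The covering dimension is at most `d`: every finite open cover can be shrunk to an open cover such that every point lies in at most `d + 1` of its members. -/
def DimLE (S : Type u) [TopologicalSpace S] (d : ℕ) : Prop :=
  ∀ (k : ℕ) (U : Fin k → Set S), (∀ j, IsOpen (U j)) → (⋃ j, U j) = Set.univ →
    ∃ V : Fin k → Set S, (∀ j, IsOpen (V j)) ∧ (∀ j, V j ⊆ U j) ∧ (⋃ j, V j) = Set.univ ∧ ∀ x, {j | x ∈ V j}.ncard ≤ d + 1

/-- The macroscopic dimension is at most `k`: there is a continuous map to a simplicial complex of dimension at most `k` whose fibres have bounded diameter.  The complex consists of all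
nonempty sets of at most `k + 1` elements of `ι`, and `φ` are the barycentric coordinates of the map. -/
def MacroDimLE (X : Type u) [PseudoMetricSpace X] (k : ℕ) : Prop :=
  ∃ (ι : Type u) (φ : ι → X → ℝ), (∀ i, Continuous (φ i)) ∧ LocallyFinite (fun i => {x | φ i x ≠ 0}) ∧ (∀ i x, 0 ≤ φ i x) ∧ (∀ x, ∑ᶠ i, φ i x = 1) ∧
    (∀ x, {i | φ i x ≠ 0}.ncard ≤ k + 1) ∧ ∃ D : ℝ, ∀ x y, (∀ i, φ i x = φ i y) → dist x y ≤ D

/-- `p` is a regular covering with isometric deck transformations: a surjective local homeomorphism whose fibres are the orbits of the isometries of `X` over `M`. -/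
structure IsCov {X : Type u} {M : Type v} [PseudoMetricSpace X] [TopologicalSpace M] (p : X → M) : Prop where
  continuous : Continuous p
  surj : Function.Surjective p
  isOpenMap : IsOpenMap p
  inj : ∀ x, ∃ r : ℝ, 0 < r ∧ Set.InjOn p (Metric.ball x r)
  deck : ∀ x y, p x = p y → ∃ φ : X ≃ᵢ X, φ x = y ∧ ∀ w, p (φ w) = p w

/-- the preimage of `V` under `p` is a union of pairwise disjoint open sets whose diameters are bounded by a common constant -/
def Small {X : Type u} {M : Type v} [PseudoMetricSpace X] (p : X → M) (V : Set M) : Prop :=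
  ∃ (R : ℝ) (𝒲 : Set (Set X)), (∀ W ∈ 𝒲, IsOpen W) ∧ (∀ W ∈ 𝒲, ∀ W' ∈ 𝒲, ∀ x, x ∈ W → x ∈ W' → W = W') ∧ ⋃₀ 𝒲 = p ⁻¹' V ∧
    ∀ W ∈ 𝒲, ∀ x ∈ W, ∀ y ∈ W, dist x y ≤ R

end Pool.Agent.H20.MD
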