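import Pool.Agent.H20.MD.Ksp

/-!
# MD DimK: the dimension of `K`
-/

set_option autoImplicit false

open Set Topology

namespace Pool.Agent.H20.MD

/-- `A` is contained in a countable union of closed subsets of dimension at most `d` -/
def Good {S : Type} [TopologicalSpace S] (d : ℕ) (A : Set S) : Prop :=
  ∃ (ι : Type) (_ : Countable ι) (F : ι → Set S), (∀ i, IsClosed (F i)) ∧ (∀ i, DimLE (F i) d) ∧ A ⊆ ⋃ i, F i

theorem Good.iUnion {S : Type} [TopologicalSpace S] {d : ℕ} {κ : Type} [Countable κ] {A : κ → Set S} (h : ∀ k, Good d (A k)) : Good d (⋃ k, A k) := by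
  choose ι hι F h1 h2 h3 using h
  refine ⟨Σ k, ι k, inferInstance, fun p => F p.1 p.2, fun p => h1 _ _, fun p => h2 _ _, ?_⟩
  refine iUnion_subset fun k x hx => ?_
  obtain ⟨i, hi⟩ := mem_iUnion.1 (h3 k hx)
  exact mem_iUnion.2 ⟨⟨k, i⟩, hi⟩

theorem Good.mono {S : Type} [TopologicalSpace S] {d : ℕ} {A A' : Set S} (h : Good d A) (h' : A' ⊆ A) : Good d A' := by
  obtain ⟨ι, hι, F, h1, h2, h3⟩ := h
  exact ⟨ι, hι, F, h1, h2, h'.trans h3⟩

theorem Good.union {S : Type} [TopologicalSpace S] {d : ℕ} {A A' : Set S} (h : Good d A) (h' : Good d A') : Good d (A ∪ A') := by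
  have h1 : Good d (⋃ b : Bool, if b then A else A') := Good.iUnion fun b => by
    cases b
    · exact h'
    · exact h
  refine h1.mono ?_
  rintro x (hx | hx)
  · exact mem_iUnion.2 ⟨true, hx⟩
  · exact mem_iUnion.2 ⟨false, hx⟩

theorem Good.univ {S : Type} [TopologicalSpace S] [NormalSpace S] {d : ℕ} (h : Good d (univ : Set S)) : DimLE S d := by
  obtain ⟨ι, hι, F, h1, h2, h3⟩ := h
  exact sum_thm' F h1 h2 (univ_subset_iff.1 h3)

/-- closed subintervals of an open interval -/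
def Jc (a b : ℝ) (k : ℕ) : Set unitInterval := {t | a + 1 / ((k : ℝ) + 1) ≤ t ∧ (t : ℝ) ≤ b - 1 / ((k : ℝ) + 1)}

theorem Jc_closed (a b : ℝ) (k : ℕ) : IsClosed (Jc a b k) :=
  (isClosed_le continuous_const continuous_subtype_val).inter (isClosed_le continuous_subtype_val continuous_const)

theorem Jc_lt {a b : ℝ} {k : ℕ} {t : unitInterval} (h : t ∈ Jc a b k) : a < t ∧ (t : ℝ) < b := by
  have h1 : (0 : ℝ) < 1 / ((k : ℝ) + 1) := by positivity
  exact ⟨by linarith [h.1], by linarith [h.2]⟩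

theorem exists_Jc {a b : ℝ} {t : unitInterval} (h1 : a < t) (h2 : (t : ℝ) < b) : ∃ n, ∀ k, n ≤ k → t ∈ Jc a b k := by
  obtain ⟨n, hn⟩ := exists_nat_one_div_lt (show (0 : ℝ) < min ((t : ℝ) - a) (b - t) from lt_min (by linarith) (by linarith))
  refine ⟨n, fun k hk => ?_⟩
  have h3 : 1 / ((k : ℝ) + 1) ≤ 1 / ((n : ℝ) + 1) := by
    have : (n : ℝ) ≤ k := by exact_mod_cast hk
    gcongr
  have h4 := min_le_left ((t : ℝ) - a) (b - t)
  have h5 := min_le_right ((t : ℝ) - a) (b - t)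
  exact ⟨by linarith, by linarith⟩

variable {M M' B Q : Type} [TopologicalSpace M] [TopologicalSpace M'] [TopologicalSpace B] [TopologicalSpace Q] {m : ℕ}

namespace Modif

variable {S : Modif M M' B Q m}

theorem pieceGen [CompactSpace M] [T2Space M] [CompactSpace M'] [T2Space M'] [CompactSpace B] [T2Space B] [CompactSpace Q] [T2Space Q] (T : S.Ext) (i : Fin m)
    {W : Set M'} (hW : IsClosed W) (hWE : W ⊆ S.E i) {J : Set (unitInterval × unitInterval)} (hJ : IsClosed J) (hs : ∀ p ∈ J, p.1 = 1 ∨ W ⊆ S.D)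
    (h01 : ∀ p ∈ J, (0 : ℝ) < p.2 ∧ (p.2 : ℝ) < 1) {A : Type} [TopologicalSpace A] [T2Space A] {d : ℕ} (hd : DimLE A d) (α : W → unitInterval × unitInterval → A)
    (hα : Continuous fun c : W × (unitInterval × unitInterval) => α c.1 c.2)
    (h1 : ∀ x x' : W, ∀ p ∈ J, ∀ p' ∈ J, α x p = α x' p' → p = p' ∧ (lamB p.1 p.2 ≠ 0 → S.f x = S.f x') ∧ (lamQ p.1 p.2 ≠ 0 → S.g i x = S.g i x') ∧
      (lamZ p.1 p.2 ≠ 0 → S.q x = S.q x'))
    (h2 : ∀ x x' : W, ∀ p ∈ J, (lamB p.1 p.2 ≠ 0 → S.f x = S.f x') → (lamQ p.1 p.2 ≠ 0 → S.g i x = S.g i x') → (lamZ p.1 p.2 ≠ 0 → S.q x = S.q x') → α x p = α x' p) :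
    Good d {k : T.K | ∃ x ∈ W, ∃ p ∈ J, k.1 = T.Theta (x, p.2, leg i p.1)} := by
  have : CompactSpace W := isCompact_iff_compactSpace.1 hW.isCompact
  have : CompactSpace J := isCompact_iff_compactSpace.1 hJ.isCompact
  have e0 : ∀ c : W × J, T.Theta ((c.1 : M'), c.2.1.2, leg i c.2.1.1) = Psi (c.2.1.1 : ℝ) c.2.1.2 (S.f c.1) (S.g i c.1) (S.q c.1) := fun c =>
    T.Theta_leg (hWE c.1.2) _ _
  have hpar : Continuous fun c : W × J => (((c.1 : M'), c.2.1.2, leg i c.2.1.1) : AA M' m) := by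
    refine (continuous_subtype_val.comp continuous_fst).prodMk ((continuous_snd.comp (continuous_subtype_val.comp continuous_snd)).prodMk ?_)
    exact (leg_cont i).comp (continuous_fst.comp (continuous_subtype_val.comp continuous_snd))
  obtain ⟨h3, h4⟩ := T.piece (C := W × J) (fun c => ((c.1 : M'), c.2.1.2, leg i c.2.1.1)) hpar (fun c => by
      refine S.mem_P_leg (hWE c.1.2) _ _ ?_
      rcases hs _ c.2.2 with h | h
      · exact Or.inl h
      · exact Or.inr (h c.1.2)) hd (fun c => α c.1 c.2.1)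
      (hα.comp (continuous_fst.prodMk (continuous_subtype_val.comp continuous_snd))) (fun c c' h => by
      obtain ⟨h5, h6, h7, h8⟩ := h1 c.1 c'.1 _ c.2.2 _ c'.2.2 h
      rw [e0, e0, ← h5]
      funext a
      rcases a with φ | φ | φ
      · show lamB _ _ * φ _ = lamB _ _ * φ _
        rcases eq_or_ne (lamB (c.2.1.1 : ℝ) c.2.1.2) 0 with h9 | h9
        · rw [h9, zero_mul, zero_mul]
        · rw [h6 h9]
      · show lamQ _ _ * φ _ = lamQ _ _ * φ _
        rcases eq_or_ne (lamQ (c.2.1.1 : ℝ) c.2.1.2) 0 with h9 | h9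
        · rw [h9, zero_mul, zero_mul]
        · rw [h7 h9]
      · show lamZ _ _ * φ _ = lamZ _ _ * φ _
        rcases eq_or_ne (lamZ (c.2.1.1 : ℝ) c.2.1.2) 0 with h9 | h9
        · rw [h9, zero_mul, zero_mul]
        · rw [h8 h9]) (fun c c' h => by
      rw [e0, e0] at h
      obtain ⟨h5, h6, h7, h8, h9, h10, h11⟩ := Psi_inj h
      have h12 : c.2.1 = c'.2.1 := by
        refine Prod.ext ?_ (Subtype.ext h5)
        have h13 := h01 _ c.2.2
        unfold lamQ at h6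
        rw [← h5] at h6
        have h14 : (1 : ℝ) - |2 * (c.2.1.2 : ℝ) - 1| ≠ 0 := by
          have : |2 * (c.2.1.2 : ℝ) - 1| < 1 := abs_lt.2 ⟨by linarith, by linarith⟩
          linarith
        exact Subtype.ext (mul_left_cancel₀ h14 h6)
      have h15 := h2 c.1 c'.1 _ c.2.2 h9 h10 h11
      show α c.1 c.2.1 = α c'.1 c'.2.1
      rw [h15, h12])
  refine ⟨Unit, inferInstance, fun _ => _, fun _ => h3, fun _ => h4, fun k hk => ?_⟩
  obtain ⟨x, hx, p, hp, hk⟩ := hk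
  exact mem_iUnion.2 ⟨(), ⟨⟨x, hx⟩, ⟨p, hp⟩⟩, hk⟩


private theorem lamQ_ne {s t : ℝ} (hs : s ≠ 0) (h0 : 0 < t) (h1 : t < 1) : lamQ s t ≠ 0 := by
  unfold lamQ
  refine mul_ne_zero ?_ hs
  have : |2 * t - 1| < 1 := abs_lt.2 ⟨by linarith, by linarith⟩
  linarith

private theorem lamB_ne {s t : ℝ} (hs : 0 ≤ s) (hs1 : s < 1) (h0 : 0 < t) : lamB s t ≠ 0 := by
  unfold lamB
  have h1 : 0 < (1 - s) * t := mul_pos (by linarith) h0
  have h2 : 0 ≤ s * max (2 * t - 1) 0 := mul_nonneg hs (le_max_right _ _)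
  linarith

private theorem lamZ_ne {s t : ℝ} (hs : 0 ≤ s) (hs1 : s < 1) (h1 : t < 1) : lamZ s t ≠ 0 := by
  unfold lamZ
  have h1 : 0 < (1 - s) * (1 - t) := mul_pos (by linarith) (by linarith)
  have h2 : 0 ≤ s * max (1 - 2 * t) 0 := mul_nonneg hs (le_max_right _ _)
  linarith

private theorem lamB_top {t : ℝ} (h : 1 / 2 < t) : lamB 1 t ≠ 0 := by
  unfold lamB
  rw [max_eq_left (by linarith)]
  intro h1
  linarith

private theorem lamZ_top {t : ℝ} (h : 1 / 2 ≤ t) : lamZ 1 t = 0 := by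
  unfold lamZ
  rw [max_eq_right (by linarith)]
  ring

private theorem lamZ_bot {t : ℝ} (h : t < 1 / 2) : lamZ 1 t ≠ 0 := by
  unfold lamZ
  rw [max_eq_left (by linarith)]
  intro h1
  linarith

private theorem lamB_bot {t : ℝ} (h : t ≤ 1 / 2) : lamB 1 t = 0 := by
  unfold lamB
  rw [max_eq_right (by linarith)]
  ring

private theorem lamQ_z (t : ℝ) : lamQ 0 t = 0 := by
  unfold lamQ
  ring

theorem goodBQ [CompactSpace M] [T2Space M] [CompactSpace M'] [T2Space M'] [CompactSpace B] [T2Space B] [CompactSpace Q] [T2Space Q] (T : S.Ext) (i : Fin m) {e : ℕ}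
    (h : DimLE ((fun x => (S.f x, S.g i x)) '' S.E i) (e + 1)) :
    Good (e + 2) {k : T.K | ∃ x ∈ S.E i, ∃ t : unitInterval, 1 / 2 < (t : ℝ) ∧ (t : ℝ) < 1 ∧ k.1 = T.Theta (x, t, leg i 1)} := by
  have hc : ContinuousOn (fun x => (S.f x, S.g i x)) (S.E i) := S.f_cont.continuousOn.prodMk (S.g_cont i)
  have : CompactSpace ((fun x => (S.f x, S.g i x)) '' S.E i) := isCompact_iff_compactSpace.1 ((S.E_closed i).isCompact.image_of_continuousOn hc)
  have h3 : Good (e + 2) (⋃ k : ℕ, {k' : T.K | ∃ x ∈ S.E i, ∃ p ∈ ({1} ×ˢ Jc (1 / 2) 1 k : Set (unitInterval × unitInterval)), k'.1 = T.Theta (x, p.2, leg i p.1)}) := by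
    refine Good.iUnion fun k => ?_
    refine pieceGen T i (S.E_closed i) subset_rfl (isClosed_singleton.prod (Jc_closed _ _ _)) (fun p hp => Or.inl hp.1) (fun p hp => ?_) h.prod
      (fun x p => (⟨(S.f x, S.g i x), mem_image_of_mem _ x.2⟩, p.2)) ?_ (fun x x' p hp p' hp' h4 => ?_) (fun x x' p hp h4 h5 h6 => ?_)
    · have := Jc_lt hp.2
      exact ⟨by linarith, this.2⟩
    · refine Continuous.prodMk (Continuous.subtype_mk ?_ _) (continuous_snd.comp continuous_snd)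
      exact (continuousOn_iff_continuous_domRestrict.1 hc).comp continuous_fst
    · obtain ⟨h5, h6⟩ := Prod.mk.inj h4
      have h7 := Prod.mk.inj (congrArg Subtype.val h5)
      have h8 := Jc_lt hp.2
      have h9 : p.1 = 1 := hp.1
      refine ⟨Prod.ext (h9.trans (show p'.1 = 1 from hp'.1).symm) h6, fun _ => h7.1, fun _ => h7.2, fun h10 => absurd ?_ h10⟩
      rw [h9]
      exact lamZ_top h8.1.le
    · have h8 := Jc_lt hp.2
      have h9 : p.1 = 1 := hp.1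
      rw [h9] at h4 h5
      have h10 := h4 (lamB_top h8.1)
      have h11 := h5 (lamQ_ne (by simp) (by linarith) h8.2)
      refine Prod.ext (Subtype.ext (Prod.ext h10 h11)) rfl
  refine h3.mono ?_
  rintro k' ⟨x, hx, t, ht0, ht1, hk⟩
  obtain ⟨n, hn⟩ := exists_Jc ht0 ht1
  exact mem_iUnion.2 ⟨n, x, hx, (1, t), ⟨rfl, hn n le_rfl⟩, hk⟩

theorem goodQZ [CompactSpace M] [T2Space M] [CompactSpace M'] [T2Space M'] [CompactSpace B] [T2Space B] [CompactSpace Q] [T2Space Q] (T : S.Ext) (i : Fin m) {e : ℕ}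
    (h : DimLE ((fun x => (S.g i x, S.q x)) '' S.E i) (e + 1)) :
    Good (e + 2) {k : T.K | ∃ x ∈ S.E i, ∃ t : unitInterval, 0 < (t : ℝ) ∧ (t : ℝ) < 1 / 2 ∧ k.1 = T.Theta (x, t, leg i 1)} := by
  have hc : ContinuousOn (fun x => (S.g i x, S.q x)) (S.E i) := (S.g_cont i).prodMk S.q_cont.continuousOn
  have : CompactSpace ((fun x => (S.g i x, S.q x)) '' S.E i) := isCompact_iff_compactSpace.1 ((S.E_closed i).isCompact.image_of_continuousOn hc)
  have h3 : Good (e + 2) (⋃ k : ℕ, {k' : T.K | ∃ x ∈ S.E i, ∃ p ∈ ({1} ×ˢ Jc 0 (1 / 2) k : Set (unitInterval × unitInterval)), k'.1 = T.Theta (x, p.2, leg i p.1)}) := by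
    refine Good.iUnion fun k => ?_
    refine pieceGen T i (S.E_closed i) subset_rfl (isClosed_singleton.prod (Jc_closed _ _ _)) (fun p hp => Or.inl hp.1) (fun p hp => ?_) h.prod
      (fun x p => (⟨(S.g i x, S.q x), mem_image_of_mem _ x.2⟩, p.2)) ?_ (fun x x' p hp p' hp' h4 => ?_) (fun x x' p hp h4 h5 h6 => ?_)
    · have := Jc_lt hp.2
      exact ⟨this.1, by linarith⟩
    · refine Continuous.prodMk (Continuous.subtype_mk ?_ _) (continuous_snd.comp continuous_snd)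
      exact (continuousOn_iff_continuous_domRestrict.1 hc).comp continuous_fst
    · obtain ⟨h5, h6⟩ := Prod.mk.inj h4
      have h7 := Prod.mk.inj (congrArg Subtype.val h5)
      have h8 := Jc_lt hp.2
      have h9 : p.1 = 1 := hp.1
      refine ⟨Prod.ext (h9.trans (show p'.1 = 1 from hp'.1).symm) h6, fun h10 => absurd ?_ h10, fun _ => h7.1, fun _ => h7.2⟩
      rw [h9]
      exact lamB_bot h8.2.le
    · have h8 := Jc_lt hp.2
      have h9 : p.1 = 1 := hp.1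
      rw [h9] at h5 h6
      have h10 := h5 (lamQ_ne (by simp) h8.1 (by linarith))
      have h11 := h6 (lamZ_bot h8.2)
      refine Prod.ext (Subtype.ext (Prod.ext h10 h11)) rfl
  refine h3.mono ?_
  rintro k' ⟨x, hx, t, ht0, ht1, hk⟩
  obtain ⟨n, hn⟩ := exists_Jc ht0 ht1
  exact mem_iUnion.2 ⟨n, x, hx, (1, t), ⟨rfl, hn n le_rfl⟩, hk⟩

theorem goodQ [CompactSpace M] [T2Space M] [CompactSpace M'] [T2Space M'] [CompactSpace B] [T2Space B] [CompactSpace Q] [T2Space Q] (T : S.Ext) (i : Fin m) {d : ℕ}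
    (h : DimLE Q d) : Good d {k : T.K | ∃ x ∈ S.E i, ∃ t : unitInterval, (t : ℝ) = 1 / 2 ∧ k.1 = T.Theta (x, t, leg i 1)} := by
  have hh : ∀ p ∈ ({(1, ⟨1 / 2, by norm_num, by norm_num⟩)} : Set (unitInterval × unitInterval)), p.1 = 1 ∧ (p.2 : ℝ) = 1 / 2 := by
    intro p hp
    rw [mem_singleton_iff.1 hp]
    exact ⟨rfl, rfl⟩
  refine (pieceGen T i (S.E_closed i) subset_rfl (J := {(1, ⟨1 / 2, by norm_num, by norm_num⟩)}) isClosed_singleton (fun p hp => Or.inl (hh p hp).1) (fun p hp => ?_) h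
      (fun x p => S.g i x) ?_ (fun x x' p hp p' hp' h4 => ?_) (fun x x' p hp h4 h5 h6 => ?_)).mono ?_
  · rw [(hh p hp).2]
    norm_num
  · exact (continuousOn_iff_continuous_domRestrict.1 (S.g_cont i)).comp continuous_fst
  · refine ⟨(mem_singleton_iff.1 hp).trans (mem_singleton_iff.1 hp').symm, fun h10 => absurd ?_ h10, fun _ => h4, fun h10 => absurd ?_ h10⟩
    · rw [(hh p hp).1, (hh p hp).2]
      exact lamB_bot le_rfl
    · rw [(hh p hp).1, (hh p hp).2]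
      exact lamZ_top le_rfl
  · refine h5 ?_
    rw [(hh p hp).1, (hh p hp).2]
    exact lamQ_ne (by simp) (by norm_num) (by norm_num)
  · rintro k' ⟨x, hx, t, ht, hk⟩
    exact ⟨x, hx, (1, t), mem_singleton_iff.2 (Prod.ext rfl (Subtype.ext ht)), hk⟩

theorem goodBZ [CompactSpace M] [T2Space M] [CompactSpace M'] [T2Space M'] [CompactSpace B] [T2Space B] [CompactSpace Q] [T2Space Q] (T : S.Ext) (i : Fin m) {e : ℕ}
    (h : DimLE ((fun x => (S.f x, S.q x)) '' S.D) (e + 1)) :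
    Good (e + 2) {k : T.K | ∃ x ∈ S.D ∩ S.E i, ∃ t : unitInterval, 0 < (t : ℝ) ∧ (t : ℝ) < 1 ∧ k.1 = T.Theta (x, t, leg i 0)} := by
  have hc : Continuous (fun x => (S.f x, S.q x)) := S.f_cont.prodMk S.q_cont
  have : CompactSpace ((fun x => (S.f x, S.q x)) '' S.D) := isCompact_iff_compactSpace.1 (S.D_closed.isCompact.image hc)
  have h3 : Good (e + 2) (⋃ k : ℕ, {k' : T.K | ∃ x ∈ S.D ∩ S.E i, ∃ p ∈ ({0} ×ˢ Jc 0 1 k : Set (unitInterval × unitInterval)), k'.1 = T.Theta (x, p.2, leg i p.1)}) := by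
    refine Good.iUnion fun k => ?_
    refine pieceGen T i (S.D_closed.inter (S.E_closed i)) inter_subset_right (isClosed_singleton.prod (Jc_closed _ _ _)) (fun p hp => Or.inr inter_subset_left)
      (fun p hp => Jc_lt hp.2) h.prod
      (fun x p => (⟨(S.f x, S.q x), mem_image_of_mem _ x.2.1⟩, p.2)) ?_ (fun x x' p hp p' hp' h4 => ?_) (fun x x' p hp h4 h5 h6 => ?_)
    · refine Continuous.prodMk (Continuous.subtype_mk ?_ _) (continuous_snd.comp continuous_snd)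
      exact hc.comp (continuous_subtype_val.comp continuous_fst)
    · obtain ⟨h5, h6⟩ := Prod.mk.inj h4
      have h7 := Prod.mk.inj (congrArg Subtype.val h5)
      have h9 : p.1 = 0 := hp.1
      refine ⟨Prod.ext (h9.trans (show p'.1 = 0 from hp'.1).symm) h6, fun _ => h7.1, fun h10 => absurd ?_ h10, fun _ => h7.2⟩
      rw [h9]
      exact lamQ_z _
    · have h8 := Jc_lt hp.2
      have h9 : p.1 = 0 := hp.1
      rw [h9] at h4 h6
      have h10 := h4 (lamB_ne (by simp) (by simp) h8.1)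
      have h11 := h6 (lamZ_ne (by simp) (by simp) h8.2)
      refine Prod.ext (Subtype.ext (Prod.ext h10 h11)) rfl
  refine h3.mono ?_
  rintro k' ⟨x, hx, t, ht0, ht1, hk⟩
  obtain ⟨n, hn⟩ := exists_Jc ht0 ht1
  exact mem_iUnion.2 ⟨n, x, hx, (0, t), ⟨rfl, hn n le_rfl⟩, hk⟩

theorem goodBQZ [CompactSpace M] [T2Space M] [CompactSpace M'] [T2Space M'] [CompactSpace B] [T2Space B] [CompactSpace Q] [T2Space Q] (T : S.Ext) (i : Fin m) {e : ℕ}
    (h : DimLE ((fun x => (S.f x, S.g i x, S.q x)) '' (S.D ∩ S.E i)) e) :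
    Good (e + 2) {k : T.K | ∃ x ∈ S.D ∩ S.E i, ∃ s t : unitInterval, 0 < (s : ℝ) ∧ (s : ℝ) < 1 ∧ 0 < (t : ℝ) ∧ (t : ℝ) < 1 ∧ k.1 = T.Theta (x, t, leg i s)} := by
  have hc : ContinuousOn (fun x => (S.f x, S.g i x, S.q x)) (S.D ∩ S.E i) :=
    S.f_cont.continuousOn.prodMk (((S.g_cont i).mono inter_subset_right).prodMk S.q_cont.continuousOn)
  have : CompactSpace ((fun x => (S.f x, S.g i x, S.q x)) '' (S.D ∩ S.E i)) :=
    isCompact_iff_compactSpace.1 ((S.D_closed.inter (S.E_closed i)).isCompact.image_of_continuousOn hc)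
  have h3 : Good (e + 2) (⋃ k : ℕ, {k' : T.K | ∃ x ∈ S.D ∩ S.E i, ∃ p ∈ (Jc 0 1 k ×ˢ Jc 0 1 k : Set (unitInterval × unitInterval)), k'.1 = T.Theta (x, p.2, leg i p.1)}) := by
    refine Good.iUnion fun k => ?_
    refine pieceGen T i (S.D_closed.inter (S.E_closed i)) inter_subset_right ((Jc_closed _ _ _).prod (Jc_closed _ _ _)) (fun p hp => Or.inr inter_subset_left)
      (fun p hp => Jc_lt hp.2) h.prod.prod
      (fun x p => ((⟨(S.f x, S.g i x, S.q x), mem_image_of_mem _ x.2⟩, p.1), p.2)) ?_ (fun x x' p hp p' hp' h4 => ?_) (fun x x' p hp h4 h5 h6 => ?_)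
    · refine Continuous.prodMk (Continuous.prodMk (Continuous.subtype_mk ?_ _) (continuous_fst.comp continuous_snd)) (continuous_snd.comp continuous_snd)
      exact (continuousOn_iff_continuous_domRestrict.1 hc).comp continuous_fst
    · obtain ⟨h5, h6⟩ := Prod.mk.inj h4
      obtain ⟨h7, h8⟩ := Prod.mk.inj h5
      have h9 := Prod.mk.inj (congrArg Subtype.val h7)
      have h10 := Prod.mk.inj h9.2
      exact ⟨Prod.ext h8 h6, fun _ => h9.1, fun _ => h10.1, fun _ => h10.2⟩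
    · have h8 := Jc_lt hp.2
      have h9 := Jc_lt hp.1
      have h10 := h4 (lamB_ne h9.1.le h9.2 h8.1)
      have h11 := h5 (lamQ_ne h9.1.ne' h8.1 h8.2)
      have h12 := h6 (lamZ_ne h9.1.le h9.2 h8.2)
      refine Prod.ext (Prod.ext (Subtype.ext (Prod.ext h10 (Prod.ext h11 h12))) rfl) rfl
  refine h3.mono ?_
  rintro k' ⟨x, hx, s, t, hs0, hs1, ht0, ht1, hk⟩
  obtain ⟨n, hn⟩ := exists_Jc ht0 ht1
  obtain ⟨n', hn'⟩ := exists_Jc hs0 hs1
  exact mem_iUnion.2 ⟨max n n', x, hx, (s, t), ⟨hn' _ (le_max_right _ _), hn _ (le_max_left _ _)⟩, hk⟩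

theorem goodB [CompactSpace M] [T2Space M] [CompactSpace M'] [T2Space M'] [CompactSpace B] [T2Space B] [CompactSpace Q] [T2Space Q] (T : S.Ext) {d : ℕ} (h : DimLE B d) :
    Good d {k : T.K | ∃ x v, k.1 = T.Theta (x, 1, v)} := by
  obtain ⟨h3, h4⟩ := T.piece (C := M') (fun x => (x, 1, 0)) (continuous_id.prodMk continuous_const) (fun x => S.mem_P_one x 0) h S.f S.f_cont
    (fun x x' h1 => T.Theta_one_eq h1 _ _) (fun x x' h1 => sep fun φ => by rw [← T.Theta_one_B x 0 φ, ← T.Theta_one_B x' 0 φ, h1])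
  refine ⟨Unit, inferInstance, fun _ => _, fun _ => h3, fun _ => h4, fun k hk => ?_⟩
  obtain ⟨x, v, hk⟩ := hk
  exact mem_iUnion.2 ⟨(), x, hk.trans (T.Theta_one_eq rfl _ _)⟩

theorem goodZ [CompactSpace M] [T2Space M] [CompactSpace M'] [T2Space M'] [CompactSpace B] [T2Space B] [CompactSpace Q] [T2Space Q] (T : S.Ext) {d : ℕ} (h : DimLE S.Z d) :
    Good d {k : T.K | ∃ x v, S.q x ∈ S.Z ∧ k.1 = T.Theta (x, 0, v)} := by
  have : CompactSpace (S.q ⁻¹' S.Z) := isCompact_iff_compactSpace.1 (S.Z_closed.preimage S.q_cont).isCompact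
  obtain ⟨h3, h4⟩ := T.piece (C := S.q ⁻¹' S.Z) (fun x => (x.1, 0, 0)) (continuous_subtype_val.prodMk continuous_const) (fun x => S.mem_P_zero x.2 0) h
    (fun x => ⟨S.q x.1, x.2⟩) ((S.q_cont.comp continuous_subtype_val).subtype_mk _)
    (fun x x' h1 => T.Theta_zero_eq (congrArg Subtype.val h1) _ _)
    (fun x x' h1 => Subtype.ext (sep fun φ => by rw [← T.Theta_zero_Z x.1 0 φ, ← T.Theta_zero_Z x'.1 0 φ, h1]))
  refine ⟨Unit, inferInstance, fun _ => _, fun _ => h3, fun _ => h4, fun k hk => ?_⟩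
  obtain ⟨x, v, hx, hk⟩ := hk
  exact mem_iUnion.2 ⟨(), ⟨x, hx⟩, hk.trans (T.Theta_zero_eq rfl _ _)⟩

theorem dimK [CompactSpace M] [T2Space M] [CompactSpace M'] [T2Space M'] [CompactSpace B] [T2Space B] [CompactSpace Q] [T2Space Q] (T : S.Ext) {e : ℕ}
    (hB : DimLE B (e + 2)) (hZ : DimLE S.Z (e + 2)) (hQ : DimLE Q (e + 2)) (hBQ : ∀ i, DimLE ((fun x => (S.f x, S.g i x)) '' S.E i) (e + 1))
    (hQZ : ∀ i, DimLE ((fun x => (S.g i x, S.q x)) '' S.E i) (e + 1)) (hBZ : DimLE ((fun x => (S.f x, S.q x)) '' S.D) (e + 1))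
    (hBQZ : ∀ i, DimLE ((fun x => (S.f x, S.g i x, S.q x)) '' (S.D ∩ S.E i)) e) : DimLE T.K (e + 2) := by
  refine Good.univ ((((goodB T hB).union (goodZ T hZ)).union (Good.iUnion fun i => ((goodQ T i hQ).union (goodBQ T i (hBQ i))).union
    ((goodQZ T i (hQZ i)).union ((goodBZ T i hBZ).union (goodBQZ T i (hBQZ i)))))).mono ?_)
  rintro ⟨k, ⟨x, t, v⟩, hp, rfl⟩ -
  rcases eq_or_ne t 1 with ht1 | ht1
  · subst ht1
    exact Or.inl (Or.inl ⟨x, v, rfl⟩)
  have ht1' : (t : ℝ) < 1 := lt_of_le_of_ne t.2.2 fun h => ht1 (Subtype.ext h)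
  rcases hp with (hp | hp) | hp
  · exact absurd hp ht1
  · obtain ⟨hx, ht⟩ := hp
    have ht' : t = 0 := ht
    subst ht'
    exact Or.inl (Or.inr ⟨x, v, hx, rfl⟩)
  obtain ⟨i, hx, hv, hs⟩ := mem_iUnion.1 hp
  have hx' : x ∈ S.E i := hx
  have hv' : v = leg i (v i) := hv
  have hs' : v i = 1 ∨ x ∈ S.D := hs
  rcases eq_or_ne t 0 with ht0 | ht0
  · subst ht0
    refine Or.inl (Or.inr ⟨x, v, ?_, rfl⟩)
    have h1 : x ∈ ⋃ i, S.E i := mem_iUnion.2 ⟨i, hx'⟩
    rw [S.E_union] at h1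
    exact h1
  have ht0' : 0 < (t : ℝ) := lt_of_le_of_ne t.2.1 fun h => ht0 (Subtype.ext h.symm)
  refine Or.inr (mem_iUnion.2 ⟨i, ?_⟩)
  rcases eq_or_ne (v i) 1 with h1 | h1
  · rw [h1] at hv'
    have h3 : T.Theta (x, t, v) = T.Theta (x, t, leg i 1) := by rw [hv']
    rcases lt_trichotomy (t : ℝ) (1 / 2) with h2 | h2 | h2
    · exact Or.inr (Or.inl ⟨x, hx', t, ht0', h2, h3⟩)
    · exact Or.inl (Or.inl ⟨x, hx', t, h2, h3⟩)
    · exact Or.inl (Or.inr ⟨x, hx', t, h2, ht1', h3⟩)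
  have hD : x ∈ S.D := hs'.resolve_left h1
  have h1' : (v i : ℝ) < 1 := lt_of_le_of_ne (v i).2.2 fun h => h1 (Subtype.ext h)
  rcases eq_or_ne (v i) 0 with h2 | h2
  · rw [h2] at hv'
    have h3 : T.Theta (x, t, v) = T.Theta (x, t, leg i 0) := by rw [hv']
    exact Or.inr (Or.inr (Or.inl ⟨x, ⟨hD, hx'⟩, t, ht0', ht1', h3⟩))
  have h2' : 0 < (v i : ℝ) := lt_of_le_of_ne (v i).2.1 fun h => h2 (Subtype.ext h.symm)
  refine Or.inr (Or.inr (Or.inr ⟨x, ⟨hD, hx'⟩, v i, t, h2', h1', ht0', ht1', ?_⟩))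
  rw [← hv']

end Modif

end Pool.Agent.H20.MD
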