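import Pool.Agent.H20.MD.Dat

/-!
# MD Ksp: the space `P` of the modification with inserted collars, its map to the join

`P ⊆ AA = M' × [0,1] × [0,1]^m`: the points `(x, t, v)` with `t = 1`, or `x` exceptional and `t = 0`, or `x ∈ E i`, `v` on the leg `i`, and `v` the end of the leg or `x ∈ D`.
`Theta`: the map to the join; `K = Theta '' P`.
-/

set_option autoImplicit false

open Set Topology

namespace Pool.Agent.H20.MD

/-- the ambient space -/
abbrev AA (M' : Type) (m : ℕ) : Type := M' × unitInterval × (Fin m → unitInterval)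

/-- the point `s` of the leg `i` -/
def leg {m : ℕ} (i : Fin m) (s : unitInterval) : Fin m → unitInterval := Pi.single i s

theorem leg_self {m : ℕ} (i : Fin m) (s : unitInterval) : leg i s i = s := by
  unfold leg
  simp

theorem leg_ne {m : ℕ} {i j : Fin m} (h : j ≠ i) (s : unitInterval) : leg i s j = 0 := by
  unfold leg
  simp [h]

theorem leg_cont {m : ℕ} (i : Fin m) : Continuous (leg i) := by
  refine continuous_pi fun j => ?_
  by_cases h : j = i
  · subst h
    simp only [leg_self]
    exact continuous_id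
  · simp only [leg_ne h]
    exact continuous_const

theorem leg_sum {m : ℕ} (i : Fin m) (s : unitInterval) : ∑ j, (leg i s j : ℝ) = s := by
  rw [Finset.sum_eq_single i]
  · rw [leg_self]
  · intro j _ hj
    rw [leg_ne hj]
    rfl
  · intro h
    exact absurd (Finset.mem_univ i) h

theorem leg_sum' {m : ℕ} (i : Fin m) (s : unitInterval) (w : Fin m → ℝ) : ∑ j, (leg i s j : ℝ) * w j = s * w i := by
  rw [Finset.sum_eq_single i]
  · rw [leg_self]
  · intro j _ hj
    rw [leg_ne hj]
    exact zero_mul _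
  · intro h
    exact absurd (Finset.mem_univ i) h

variable {M M' B Q : Type} [TopologicalSpace M] [TopologicalSpace M'] [TopologicalSpace B] [TopologicalSpace Q] {m : ℕ}

namespace Modif

variable (S : Modif M M' B Q m)

/-- the points over the exceptional set with `v` on a leg -/
def L (i : Fin m) : Set (AA M' m) := {p | p.1 ∈ S.E i ∧ p.2.2 = leg i (p.2.2 i) ∧ (p.2.2 i = 1 ∨ p.1 ∈ S.D)}

/-- the modification with inserted collars -/
def P : Set (AA M' m) := {p | p.2.1 = 1} ∪ {p | S.q p.1 ∈ S.Z ∧ p.2.1 = 0} ∪ ⋃ i, S.L i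

theorem P_closed : IsClosed S.P := by
  refine ((?_ : IsClosed _).union ?_).union (isClosed_iUnion_of_finite fun i => ?_)
  · exact isClosed_eq (continuous_fst.comp continuous_snd) continuous_const
  · exact (S.Z_closed.preimage (S.q_cont.comp continuous_fst)).inter (isClosed_eq (continuous_fst.comp continuous_snd) continuous_const)
  · have c1 : Continuous fun p : AA M' m => p.2.2 i := (continuous_apply i).comp (continuous_snd.comp continuous_snd)
    refine ((S.E_closed i).preimage continuous_fst).inter (IsClosed.inter (isClosed_eq (continuous_snd.comp continuous_snd) ((leg_cont i).comp c1)) ?_)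
    exact (isClosed_eq c1 continuous_const).union (S.D_closed.preimage continuous_fst)

theorem mem_P_one (x : M') (v : Fin m → unitInterval) : (x, (1 : unitInterval), v) ∈ S.P := Or.inl (Or.inl rfl)

theorem mem_P_zero {x : M'} (hx : S.q x ∈ S.Z) (v : Fin m → unitInterval) : (x, (0 : unitInterval), v) ∈ S.P := Or.inl (Or.inr ⟨hx, rfl⟩)

theorem mem_P_leg {x : M'} {i : Fin m} (hx : x ∈ S.E i) (t s : unitInterval) (h : s = 1 ∨ x ∈ S.D) : (x, t, leg i s) ∈ S.P := by
  refine Or.inr (mem_iUnion.2 ⟨i, hx, ?_, ?_⟩)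
  · show leg i s = leg i (leg i s i)
    rw [leg_self]
  · show leg i s i = 1 ∨ x ∈ S.D
    rw [leg_self]
    exact h

/-- the extensions of the functions on `Q` -/
structure Ext where
  /-- the extension of `φ ∘ g i` -/
  h : Fin m → C(Q, ℝ) → C(M', ℝ)
  eq : ∀ i φ x, x ∈ S.E i → h i φ x = φ (S.g i x)

theorem exists_ext [CompactSpace M'] [T2Space M'] : Nonempty S.Ext := by
  have h1 : ∀ (i : Fin m) (φ : C(Q, ℝ)), ∃ ψ : C(M', ℝ), ∀ x ∈ S.E i, ψ x = φ (S.g i x) := by
    intro i φ
    have c1 : Continuous fun x : S.E i => S.g i x := continuousOn_iff_continuous_restrict.1 (S.g_cont i)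
    obtain ⟨ψ, hψ⟩ := ContinuousMap.exists_restrict_eq (S.E_closed i) (⟨fun x : S.E i => φ (S.g i x), φ.continuous.comp c1⟩ : C(S.E i, ℝ))
    refine ⟨ψ, fun x hx => ?_⟩
    exact congrArg (fun η : C(S.E i, ℝ) => η ⟨x, hx⟩) hψ
  choose h hh using h1
  exact ⟨⟨h, hh⟩⟩

variable {S}

namespace Ext

variable (T : S.Ext)

/-- the map to the join -/
noncomputable def Theta (p : AA M' m) : JJ M B Q :=
  Sum.elim (fun φ => lamB (∑ i, (p.2.2 i : ℝ)) p.2.1 * φ (S.f p.1))
    (Sum.elim (fun φ => (1 - |2 * (p.2.1 : ℝ) - 1|) * ∑ i, (p.2.2 i : ℝ) * T.h i φ p.1) (fun φ => lamZ (∑ i, (p.2.2 i : ℝ)) p.2.1 * φ (S.q p.1)))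

theorem Theta_cont : Continuous T.Theta := by
  have c0 : Continuous fun p : AA M' m => ((p.2.1 : unitInterval) : ℝ) := continuous_subtype_val.comp (continuous_fst.comp continuous_snd)
  have c1 : ∀ i, Continuous fun p : AA M' m => ((p.2.2 i : unitInterval) : ℝ) := fun i =>
    continuous_subtype_val.comp ((continuous_apply i).comp (continuous_snd.comp continuous_snd))
  have c2 : Continuous fun p : AA M' m => ∑ i, ((p.2.2 i : unitInterval) : ℝ) := continuous_finset_sum _ fun i _ => c1 i
  refine continuous_pi fun a => ?_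
  rcases a with φ | φ | φ
  · show Continuous fun p : AA M' m => lamB (∑ i, (p.2.2 i : ℝ)) p.2.1 * φ (S.f p.1)
    refine Continuous.mul ?_ (φ.continuous.comp (S.f_cont.comp continuous_fst))
    unfold lamB
    exact ((continuous_const.sub c2).mul c0).add (c2.mul (((continuous_const.mul c0).sub continuous_const).max continuous_const))
  · show Continuous fun p : AA M' m => (1 - |2 * (p.2.1 : ℝ) - 1|) * ∑ i, (p.2.2 i : ℝ) * T.h i φ p.1
    refine Continuous.mul (continuous_const.sub ((continuous_const.mul c0).sub continuous_const).abs) ?_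
    exact continuous_finset_sum _ fun i _ => (c1 i).mul ((T.h i φ).continuous.comp continuous_fst)
  · show Continuous fun p : AA M' m => lamZ (∑ i, (p.2.2 i : ℝ)) p.2.1 * φ (S.q p.1)
    refine Continuous.mul ?_ (φ.continuous.comp (S.q_cont.comp continuous_fst))
    unfold lamZ
    exact ((continuous_const.sub c2).mul (continuous_const.sub c0)).add
      (c2.mul ((continuous_const.sub (continuous_const.mul c0)).max continuous_const))

theorem Theta_leg {x : M'} {i : Fin m} (hx : x ∈ S.E i) (t s : unitInterval) : T.Theta (x, t, leg i s) = Psi (s : ℝ) t (S.f x) (S.g i x) (S.q x) := by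
  funext a
  rcases a with φ | φ | φ
  · show lamB (∑ j, (leg i s j : ℝ)) t * φ (S.f x) = lamB s t * φ (S.f x)
    rw [leg_sum]
  · show (1 - |2 * (t : ℝ) - 1|) * ∑ j, (leg i s j : ℝ) * T.h j φ x = lamQ s t * φ (S.g i x)
    rw [leg_sum', T.eq i φ x hx]
    unfold lamQ
    ring
  · show lamZ (∑ j, (leg i s j : ℝ)) t * φ (S.q x) = lamZ s t * φ (S.q x)
    rw [leg_sum]

private theorem lamB_one (s : ℝ) : lamB s 1 = 1 := by
  unfold lamB
  rw [max_eq_left (by norm_num)]
  ring

private theorem lamZ_one (s : ℝ) : lamZ s 1 = 0 := by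
  unfold lamZ
  rw [max_eq_right (by norm_num)]
  ring

private theorem lamB_zero (s : ℝ) : lamB s 0 = 0 := by
  unfold lamB
  rw [max_eq_right (by norm_num)]
  ring

private theorem lamZ_zero (s : ℝ) : lamZ s 0 = 1 := by
  unfold lamZ
  rw [max_eq_left (by norm_num)]
  ring

theorem Theta_one_B (x : M') (v : Fin m → unitInterval) (φ : C(B, ℝ)) : T.Theta (x, 1, v) (Sum.inl φ) = φ (S.f x) := by
  show lamB (∑ i, (v i : ℝ)) ((1 : unitInterval) : ℝ) * φ (S.f x) = _
  rw [Set.Icc.coe_one, lamB_one, one_mul]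

theorem Theta_one_Q (x : M') (v : Fin m → unitInterval) (φ : C(Q, ℝ)) : T.Theta (x, 1, v) (Sum.inr (Sum.inl φ)) = 0 := by
  show (1 - |2 * ((1 : unitInterval) : ℝ) - 1|) * _ = _
  rw [Set.Icc.coe_one]
  norm_num

theorem Theta_one_Z (x : M') (v : Fin m → unitInterval) (φ : C(M, ℝ)) : T.Theta (x, 1, v) (Sum.inr (Sum.inr φ)) = 0 := by
  show lamZ (∑ i, (v i : ℝ)) ((1 : unitInterval) : ℝ) * φ (S.q x) = _
  rw [Set.Icc.coe_one, lamZ_one, zero_mul]

theorem Theta_zero_B (x : M') (v : Fin m → unitInterval) (φ : C(B, ℝ)) : T.Theta (x, 0, v) (Sum.inl φ) = 0 := by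
  show lamB (∑ i, (v i : ℝ)) ((0 : unitInterval) : ℝ) * φ (S.f x) = _
  rw [Set.Icc.coe_zero, lamB_zero, zero_mul]

theorem Theta_zero_Q (x : M') (v : Fin m → unitInterval) (φ : C(Q, ℝ)) : T.Theta (x, 0, v) (Sum.inr (Sum.inl φ)) = 0 := by
  show (1 - |2 * ((0 : unitInterval) : ℝ) - 1|) * _ = _
  rw [Set.Icc.coe_zero]
  norm_num

theorem Theta_zero_Z (x : M') (v : Fin m → unitInterval) (φ : C(M, ℝ)) : T.Theta (x, 0, v) (Sum.inr (Sum.inr φ)) = φ (S.q x) := by
  show lamZ (∑ i, (v i : ℝ)) ((0 : unitInterval) : ℝ) * φ (S.q x) = _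
  rw [Set.Icc.coe_zero, lamZ_zero, one_mul]

theorem Theta_one_eq {x x' : M'} (h : S.f x = S.f x') (v v' : Fin m → unitInterval) : T.Theta (x, 1, v) = T.Theta (x', 1, v') := by
  funext a
  rcases a with φ | φ | φ
  · rw [T.Theta_one_B, T.Theta_one_B, h]
  · rw [T.Theta_one_Q, T.Theta_one_Q]
  · rw [T.Theta_one_Z, T.Theta_one_Z]

theorem Theta_zero_eq {x x' : M'} (h : S.q x = S.q x') (v v' : Fin m → unitInterval) : T.Theta (x, 0, v) = T.Theta (x', 0, v') := by
  funext a
  rcases a with φ | φ | φ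
  · rw [T.Theta_zero_B, T.Theta_zero_B]
  · rw [T.Theta_zero_Q, T.Theta_zero_Q]
  · rw [T.Theta_zero_Z, T.Theta_zero_Z, h]

/-- the image of `P` in the join -/
def K : Set (JJ M B Q) := T.Theta '' S.P

theorem K_compact [CompactSpace M'] : IsCompact T.K := S.P_closed.isCompact.image T.Theta_cont

instance [CompactSpace M'] : CompactSpace T.K := isCompact_iff_compactSpace.1 T.K_compact

theorem piece {C : Type} [TopologicalSpace C] [CompactSpace C] (par : C → AA M' m) (hpar : Continuous par) (hP : ∀ c, par c ∈ S.P)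
    {A : Type} [TopologicalSpace A] [T2Space A] {d : ℕ} (hd : DimLE A d) (α : C → A) (hα : Continuous α) (h1 : ∀ c c', α c = α c' → T.Theta (par c) = T.Theta (par c'))
    (h2 : ∀ c c', T.Theta (par c) = T.Theta (par c') → α c = α c') :
    IsClosed {k : T.K | ∃ c, k.1 = T.Theta (par c)} ∧ DimLE {k : T.K | ∃ c, k.1 = T.Theta (par c)} d := by
  let β : C → T.K := fun c => ⟨T.Theta (par c), ⟨par c, hP c, rfl⟩⟩
  have hβ : Continuous β := (T.Theta_cont.comp hpar).subtype_mk _
  have e1 : {k : T.K | ∃ c, k.1 = T.Theta (par c)} = range β := by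
    ext k
    constructor
    · rintro ⟨c, hc⟩
      exact ⟨c, Subtype.ext hc.symm⟩
    · rintro ⟨c, rfl⟩
      exact ⟨c, rfl⟩
  rw [e1]
  refine ⟨(isCompact_range hβ).isClosed, ?_⟩
  refine transport hd α (rangeFactorization β) hα (hβ.subtype_mk _) rangeFactorization_surjective (fun c c' h => ?_) (fun c c' h => ?_)
  · exact Subtype.ext (Subtype.ext (h1 c c' h))
  · exact h2 c c' (congrArg (fun w : range β => w.1.1) h)

end Ext

end Modif

end Pool.Agent.H20.MD
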