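import Pool.Agent.H20.MD.Defs
import Mathlib.Topology.PartitionOfUnity

/-!
# MD Mac: from small covers of `M` to the macroscopic dimension of `X`
-/

set_option autoImplicit false

open Set Topology

namespace Pool.Agent.H20.MD

variable {X M : Type} [PseudoMetricSpace X] [TopologicalSpace M] {p : X → M}

theorem Small.mono (hp : Continuous p) {V V' : Set M} (hV' : IsOpen V') (h : V' ⊆ V) (hV : Small p V) : Small p V' := by
  obtain ⟨R, 𝒲, h1, h2, h3, h4⟩ := hV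
  refine ⟨R, (fun W => W ∩ p ⁻¹' V') '' 𝒲, ?_, ?_, ?_, ?_⟩
  · rintro _ ⟨W, hW, rfl⟩
    exact (h1 W hW).inter (hV'.preimage hp)
  · rintro _ ⟨W, hW, rfl⟩ _ ⟨W', hW', rfl⟩ x hx hx'
    rw [h2 W hW W' hW' x hx.1 hx'.1]
  · ext x
    constructor
    · rintro ⟨_, ⟨W, hW, rfl⟩, hx⟩
      exact hx.2
    · intro hx
      have h5 : x ∈ ⋃₀ 𝒲 := by
        rw [h3]
        exact h hx
      obtain ⟨W, hW, hxW⟩ := h5
      exact ⟨_, ⟨W, hW, rfl⟩, hxW, hx⟩
  · rintro _ ⟨W, hW, rfl⟩ x hx y hy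
    exact h4 W hW x hx.1 y hy.1

theorem IsCov.small (hp : IsCov p) (z : M) : ∃ V, IsOpen V ∧ z ∈ V ∧ Small p V := by
  obtain ⟨x0, rfl⟩ := hp.surj z
  obtain ⟨r, hr, hinj⟩ := hp.inj x0
  have h0 : ∀ y, p x0 = p y → InjOn p (Metric.ball y r) := by
    intro y hy
    obtain ⟨φ, hφ, hφ'⟩ := hp.deck x0 y hy
    intro w hw w' hw' h
    have e1 : ∀ w, p (φ.symm w) = p w := fun w => by rw [← hφ' (φ.symm w), φ.apply_symm_apply]
    have e2 : ∀ w ∈ Metric.ball y r, φ.symm w ∈ Metric.ball x0 r := by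
      intro w hw
      rw [Metric.mem_ball] at hw ⊢
      rw [← φ.dist_eq, φ.apply_symm_apply, hφ]
      exact hw
    have h1 := hinj (e2 w hw) (e2 w' hw') (by rw [e1, e1, h])
    exact φ.symm.injective h1
  refine ⟨p '' Metric.ball x0 (r / 2), hp.isOpenMap _ Metric.isOpen_ball, ⟨x0, Metric.mem_ball_self (by linarith), rfl⟩, r,
    {W | ∃ y, p x0 = p y ∧ W = Metric.ball y (r / 2)}, ?_, ?_, ?_, ?_⟩
  · rintro _ ⟨y, -, rfl⟩
    exact Metric.isOpen_ball
  · rintro _ ⟨y, hy, rfl⟩ _ ⟨y', hy', rfl⟩ x hx hx'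
    rw [Metric.mem_ball] at hx hx'
    have h1 : dist y' y < r := by
      have := dist_triangle y' x y
      rw [dist_comm y' x] at this
      linarith
    have h2 : y' = y := h0 y hy (Metric.mem_ball.2 h1) (Metric.mem_ball_self hr) (hy'.symm.trans hy)
    rw [h2]
  · ext w
    constructor
    · rintro ⟨_, ⟨y, hy, rfl⟩, hw⟩
      obtain ⟨φ, hφ, hφ'⟩ := hp.deck x0 y hy
      refine ⟨φ.symm w, ?_, ?_⟩
      · rw [Metric.mem_ball] at hw ⊢
        rw [← φ.dist_eq, φ.apply_symm_apply, hφ]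
        exact hw
      · rw [← hφ' (φ.symm w), φ.apply_symm_apply]
    · rintro ⟨u, hu, huw⟩
      obtain ⟨φ, hφ, hφ'⟩ := hp.deck u w huw
      refine ⟨_, ⟨φ x0, (hφ' x0).symm, rfl⟩, ?_⟩
      rw [Metric.mem_ball] at hu ⊢
      rw [← hφ, φ.dist_eq]
      exact hu
  · rintro _ ⟨y, -, rfl⟩ x hx x' hx'
    rw [Metric.mem_ball] at hx hx'
    have := dist_triangle_right x x' y
    linarith

theorem macro_of [CompactSpace M] [T2Space M] (hp : Continuous p) {n k : ℕ} (V : Fin n → Set M) (hV : ∀ j, IsOpen (V j)) (hc : (⋃ j, V j) = univ) (hS : ∀ j, Small p (V j))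
    (hk : ∀ z, {j | z ∈ V j}.ncard ≤ k + 1) : MacroDimLE X k := by
  classical
  obtain ⟨ρ, hρ⟩ := PartitionOfUnity.exists_isSubordinate_of_locallyFinite isClosed_univ V hV (locallyFinite_of_finite V) (by rw [hc])
  choose R 𝒲 h1 h2 h3 h4 using hS
  have hρV : ∀ j z, ρ j z ≠ 0 → z ∈ V j := fun j z hz => hρ j (subset_tsupport _ hz)
  -- at most one member of each family contains `x`
  have huni : ∀ (j : Fin n) (W W' : 𝒲 j) (x : X), x ∈ W.1 → x ∈ W'.1 → W = W' := fun j W W' x hx hx' => Subtype.ext (h2 j W.1 W.2 W'.1 W'.2 x hx hx')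
  have hex : ∀ (j : Fin n) (x : X), p x ∈ V j → ∃ W : 𝒲 j, x ∈ W.1 := by
    intro j x hx
    have h5 : x ∈ ⋃₀ 𝒲 j := by
      rw [h3 j]
      exact hx
    obtain ⟨W, hW, hxW⟩ := h5
    exact ⟨⟨W, hW⟩, hxW⟩
  set φ : (Σ j : Fin n, 𝒲 j) → X → ℝ := fun i x => if x ∈ i.2.1 then ρ i.1 (p x) else 0 with hφ
  have hφ1 : ∀ i x, φ i x ≠ 0 → x ∈ i.2.1 ∧ ρ i.1 (p x) ≠ 0 := by
    intro i x h
    simp only [hφ] at h
    by_cases h5 : x ∈ i.2.1
    · rw [if_pos h5] at h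
      exact ⟨h5, h⟩
    · rw [if_neg h5] at h
      exact absurd rfl h
  -- neighbourhoods
  have hnb : ∀ (x : X) (j : Fin n), ∃ N ∈ 𝓝 x, ∃ W0 : Set (𝒲 j), W0.Subsingleton ∧ (∀ y ∈ N, ∀ W : 𝒲 j, φ ⟨j, W⟩ y ≠ 0 → W ∈ W0) ∧
      ∀ W : 𝒲 j, (∀ y ∈ N, φ ⟨j, W⟩ y = 0) ∨ ∀ y ∈ N, φ ⟨j, W⟩ y = ρ j (p y) := by
    intro x j
    by_cases hx : p x ∈ V j
    · obtain ⟨W, hW⟩ := hex j x hx
      refine ⟨W.1, (h1 j W.1 W.2).mem_nhds hW, {W}, subsingleton_singleton, fun y hy W' hW' => huni j W' W y (hφ1 _ _ hW').1 hy, fun W' => ?_⟩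
      by_cases h5 : W' = W
      · subst h5
        exact Or.inr fun y hy => if_pos hy
      · exact Or.inl fun y hy => if_neg fun h6 => h5 (huni j W' W y h6 hy)
    · refine ⟨p ⁻¹' (tsupport (ρ j))ᶜ, ((isClosed_tsupport _).isOpen_compl.preimage hp).mem_nhds fun h => hx (hρ j h), ∅, subsingleton_empty, fun y hy W' hW' => ?_, fun W' => ?_⟩
      · exact absurd (subset_tsupport _ (hφ1 _ _ hW').2) hy
      · refine Or.inl fun y hy => ?_
        by_contra h5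
        exact hy (subset_tsupport _ (hφ1 _ _ h5).2)
  refine ⟨Σ j : Fin n, 𝒲 j, φ, fun i => ?_, fun x => ?_, fun i x => ?_, fun x => ?_, fun x => ?_, ∑ j, |R j|, fun x y h => ?_⟩
  · refine continuous_iff_continuousAt.2 fun x => ?_
    obtain ⟨N, hN, W0, -, -, h5⟩ := hnb x i.1
    rcases h5 i.2 with h6 | h6
    · refine (continuousAt_const (y := (0 : ℝ))).congr ?_
      filter_upwards [hN] with y hy
      exact (h6 y hy).symm
    · refine ContinuousAt.congr (f := fun y => ρ i.1 (p y)) (((ρ i.1).continuous.comp hp).continuousAt) ?_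
      filter_upwards [hN] with y hy
      exact (h6 y hy).symm
  · choose N hN W0 hW0 h5 h6 using hnb x
    refine ⟨⋂ j, N j, (Filter.iInter_mem).2 hN, ?_⟩
    refine Set.Finite.subset (s := ⋃ j, (fun W => (⟨j, W⟩ : Σ j : Fin n, 𝒲 j)) '' W0 j) (finite_iUnion fun j => (hW0 j).finite.image _) ?_
    rintro ⟨j, W⟩ ⟨y, hy, hyN⟩
    exact mem_iUnion.2 ⟨j, W, h5 j y (mem_iInter.1 hyN j) W hy, rfl⟩
  · simp only [hφ]
    split_ifs
    · exact ρ.nonneg _ _
    · exact le_rfl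
  · -- the sum
    have h5 : ∀ j : Fin n, ∃ s : Finset (𝒲 j), (∀ W, φ ⟨j, W⟩ x ≠ 0 → W ∈ s) ∧ ∑ W ∈ s, φ ⟨j, W⟩ x = ρ j (p x) := by
      intro j
      by_cases hx : p x ∈ V j
      · obtain ⟨W, hW⟩ := hex j x hx
        refine ⟨{W}, fun W' hW' => Finset.mem_singleton.2 (huni j W' W x (hφ1 _ _ hW').1 hW), ?_⟩
        rw [Finset.sum_singleton]
        exact if_pos hW
      · refine ⟨∅, fun W' hW' => absurd (hρV j _ (hφ1 _ _ hW').2) hx, ?_⟩
        rw [Finset.sum_empty]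
        by_contra h6
        exact hx (hρV j _ (Ne.symm h6))
    choose s hs1 hs2 using h5
    rw [finsum_eq_sum_of_support_subset (s := Finset.univ.sigma s) (fun i => φ i x) (by
      rintro ⟨j, W⟩ hi
      exact Finset.mem_coe.2 (Finset.mem_sigma.2 ⟨Finset.mem_univ _, hs1 j W hi⟩)), Finset.sum_sigma]
    rw [Finset.sum_congr rfl fun j _ => hs2 j]
    have h6 := ρ.sum_eq_one (mem_univ (p x))
    rw [finsum_eq_sum_of_fintype] at h6
    exact h6
  · refine (ncard_le_ncard_of_injOn (t := {j | p x ∈ V j}) Sigma.fst (fun i hi => hρV _ _ (hφ1 _ _ hi).2) ?_ (toFinite _)).trans (hk (p x))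
    rintro ⟨j, W⟩ hi ⟨j', W'⟩ hi' h
    have h5 : j = j' := h
    subst h5
    rw [huni j W W' x (hφ1 _ _ hi).1 (hφ1 _ _ hi').1]
  · -- the diameter
    have h5 : ∃ j, ρ j (p x) ≠ 0 := by
      by_contra hcon
      push Not at hcon
      have h6 := ρ.sum_eq_one (mem_univ (p x))
      rw [finsum_eq_sum_of_fintype, Finset.sum_congr rfl fun j _ => hcon j, Finset.sum_const_zero] at h6
      exact zero_ne_one h6
    obtain ⟨j, hj⟩ := h5
    obtain ⟨W, hW⟩ := hex j x (hρV _ _ hj)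
    have h6 : φ ⟨j, W⟩ y ≠ 0 := by
      rw [← h]
      simp only [hφ]
      rw [if_pos hW]
      exact hj
    refine (h4 j W.1 W.2 x hW y (hφ1 _ _ h6).1).trans ((le_abs_self _).trans ?_)
    exact Finset.single_le_sum (f := fun j => |R j|) (fun j _ => abs_nonneg _) (Finset.mem_univ j)

end Pool.Agent.H20.MD
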