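import Pool.Agent.H20.MD.DimK

/-!
# MD Push: pushing the modification into a neighbourhood of `P`
-/

set_option autoImplicit false

open Set Topology

namespace Pool.Agent.H20.MD

/-- Urysohn functions with values in the unit interval -/
theorem ury {S : Type} [TopologicalSpace S] [NormalSpace S] {A A' : Set S} (hA : IsClosed A) (hA' : IsClosed A') (h : Disjoint A A') :
    ∃ u : C(S, unitInterval), (∀ x ∈ A, u x = 0) ∧ ∀ x ∈ A', u x = 1 := by
  obtain ⟨φ, h0, h1, h2⟩ := exists_continuous_zero_one_of_isClosed hA hA' h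
  refine ⟨⟨fun x => ⟨φ x, h2 x⟩, φ.continuous.subtype_mk _⟩, fun x hx => Subtype.ext (h0 hx), fun x hx => Subtype.ext (h1 hx)⟩

/-- the set of the points whose slice is contained in an open set is open -/
theorem slice_open {S R A : Type} [TopologicalSpace S] [TopologicalSpace R] [CompactSpace R] [TopologicalSpace A] {F : S → R → A} (hF : Continuous fun p : S × R => F p.1 p.2)
    {O : Set A} (hO : IsOpen O) : IsOpen {x | ∀ r, F x r ∈ O} := by
  have h1 : {x | ∀ r, F x r ∈ O} = (Prod.fst '' ((fun p : S × R => F p.1 p.2) ⁻¹' Oᶜ))ᶜ := by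
    ext x
    constructor
    · rintro h ⟨p, hp, rfl⟩
      exact hp (h p.2)
    · intro h r
      by_contra h2
      exact h ⟨(x, r), h2, rfl⟩
  rw [h1]
  exact (isClosedMap_fst_of_compactSpace _ (hO.isClosed_compl.preimage hF)).isOpen_compl

variable {M M' B Q : Type} [TopologicalSpace M] [TopologicalSpace M'] [TopologicalSpace B] [TopologicalSpace Q] {m : ℕ}

namespace Modif

variable (S : Modif M M' B Q m)

theorem mem_E {x : M'} : S.q x ∈ S.Z ↔ ∃ i, x ∈ S.E i := by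
  have h1 : x ∈ S.q ⁻¹' S.Z ↔ x ∈ ⋃ i, S.E i := by rw [S.E_union]
  exact h1.trans mem_iUnion

theorem exists_section [CompactSpace M'] [T2Space M'] {O : Set (AA M' m)} (hO : IsOpen O) (hPO : S.P ⊆ O) :
    ∃ (τ : C(M', unitInterval)) (v : M' → Fin m → unitInterval), Continuous v ∧ (∀ x, S.q x ∈ S.Z → τ x = 0) ∧ ∀ x, (x, τ x, v x) ∈ O := by
  -- the coordinates of `v`
  have h1 : ∀ i : Fin m, ∃ u : C(M', unitInterval), (∀ j, j ≠ i → ∀ x ∈ S.E j, u x = 0) ∧ ∀ x ∈ S.E i, ∀ t : unitInterval, (x, t, leg i (u x)) ∈ O := by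
    intro i
    set U : Set M' := {x | ∀ r : unitInterval × unitInterval, (x, r.1, leg i r.2) ∈ O} with hU
    have hUo : IsOpen U := by
      refine slice_open (F := fun x (r : unitInterval × unitInterval) => ((x, r.1, leg i r.2) : AA M' m)) ?_ hO
      exact continuous_fst.prodMk ((continuous_fst.comp continuous_snd).prodMk ((leg_cont i).comp (continuous_snd.comp continuous_snd)))
    obtain ⟨u, hu0, hu1⟩ := ury (S := M') (A := ⋃ j : {j // j ≠ i}, S.E j.1) (A' := S.E i ∩ Uᶜ) (isClosed_iUnion_of_finite fun j => S.E_closed _)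
      ((S.E_closed i).inter hUo.isClosed_compl) (by
        rw [disjoint_left]
        intro x hx hx'
        obtain ⟨j, hj⟩ := mem_iUnion.1 hx
        refine hx'.2 fun r => hPO (S.mem_P_leg hx'.1 _ _ (Or.inr (S.mem_D j.2 hj hx'.1))))
    refine ⟨u, fun j hj x hx => hu0 x (mem_iUnion.2 ⟨⟨j, hj⟩, hx⟩), fun x hx t => ?_⟩
    by_cases h : x ∈ U
    · exact h (t, u x)
    · rw [hu1 x ⟨hx, h⟩]
      exact hPO (S.mem_P_leg hx _ _ (Or.inl rfl))
  choose u hu0 hu1 using h1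
  have hv : Continuous fun x i => u i x := continuous_pi fun i => (u i).continuous
  have h2 : ∀ i, ∀ x ∈ S.E i, (fun j => u j x) = leg i (u i x) := by
    intro i x hx
    funext j
    by_cases h : j = i
    · subst h
      rw [leg_self]
    · rw [leg_ne h]
      exact hu0 j i (Ne.symm h) x hx
  set U : Set M' := {x | ∀ t : unitInterval, (x, t, fun j => u j x) ∈ O} with hU
  have hUo : IsOpen U := by
    refine slice_open (F := fun x (t : unitInterval) => ((x, t, fun j => u j x) : AA M' m)) ?_ hO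
    exact continuous_fst.prodMk (continuous_snd.prodMk (hv.comp continuous_fst))
  obtain ⟨τ, hτ0, hτ1⟩ := ury (S := M') (A := S.q ⁻¹' S.Z) (A' := Uᶜ) (S.Z_closed.preimage S.q_cont) hUo.isClosed_compl (by
    rw [disjoint_left]
    intro x hx hx'
    refine hx' fun t => ?_
    obtain ⟨i, hi⟩ := S.mem_E.1 hx
    rw [h2 i x hi]
    exact hu1 i x hi t)
  refine ⟨τ, fun x i => u i x, hv, fun x hx => hτ0 x hx, fun x => ?_⟩
  by_cases h : x ∈ U
  · exact h (τ x)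
  · rw [hτ1 x h]
    exact hPO (S.mem_P_one _ _)

variable {S}

theorem push [CompactSpace M] [T2Space M] [CompactSpace M'] [T2Space M'] (T : S.Ext) {d : ℕ} (hdim : DimLE T.K d) (Sm : Set M → Prop)
    (hSm : ∀ V V', IsOpen V' → V' ⊆ V → Sm V → Sm V')
    (good : ∀ k : T.K, ∃ O : Set (AA M' m), IsOpen O ∧ (∀ a ∈ S.P, T.Theta a = k.1 → a ∈ O) ∧
      ((∃ N, Sm (S.q '' N \ S.Z) ∧ ∀ a ∈ O, 0 < a.2.1 ∧ a.1 ∈ N) ∨ ∃ V, Sm V ∧ ∀ a ∈ O, S.q a.1 ∈ V)) :
    ∃ (n : ℕ) (V : Fin n → Set M), (∀ j, IsOpen (V j)) ∧ (⋃ j, V j) = univ ∧ (∀ j, Sm (V j)) ∧ ∀ z, {j | z ∈ V j}.ncard ≤ d + 1 := by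
  classical
  choose O hO1 hO2 hO3 using good
  -- the neighbourhoods in `K`
  set Nb : T.K → Set T.K := fun k => {k' | k'.1 ∉ T.Theta '' (S.P ∩ (O k)ᶜ)} with hNb
  have hNb1 : ∀ k, IsOpen (Nb k) := by
    intro k
    have h1 : IsClosed (T.Theta '' (S.P ∩ (O k)ᶜ)) := ((S.P_closed.inter (hO1 k).isClosed_compl).isCompact.image T.Theta_cont).isClosed
    exact h1.isOpen_compl.preimage continuous_subtype_val
  have hNb2 : ∀ k, k ∈ Nb k := by
    rintro k ⟨a, ⟨ha, ha'⟩, hak⟩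
    exact ha' (hO2 k a ha hak)
  obtain ⟨t, ht⟩ := CompactSpace.elim_nhds_subcover Nb fun k => (hNb1 k).mem_nhds (hNb2 k)
  set idx : Fin t.card → T.K := fun j => (t.equivFin.symm j).1 with hidx
  have hcov : (⋃ j, Nb (idx j)) = univ := by
    refine eq_univ_of_forall fun k => ?_
    have h1 : k ∈ ⋃ x ∈ t, Nb x := by rw [ht]; exact mem_univ k
    obtain ⟨x, hx, hk⟩ := mem_iUnion₂.1 h1
    refine mem_iUnion.2 ⟨t.equivFin ⟨x, hx⟩, ?_⟩
    have h2 : idx (t.equivFin ⟨x, hx⟩) = x := by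
      simp only [hidx, Equiv.symm_apply_apply]
    rw [h2]
    exact hk
  obtain ⟨G, hG1, hG2, hG3, hG4⟩ := hdim.closed (fun j => Nb (idx j)) (fun j => hNb1 _) hcov
  -- the closed sets in `AA`
  set F : Fin t.card → Set (AA M' m) := fun j => S.P ∩ T.Theta ⁻¹' (Subtype.val '' G j) with hF
  have hF1 : ∀ j, IsClosed (F j) := fun j => S.P_closed.inter (((hG1 j).isCompact.image continuous_subtype_val).isClosed.preimage T.Theta_cont)
  have hF2 : ∀ j, F j ⊆ O (idx j) := by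
    rintro j a ⟨ha, k, hk, hka⟩
    by_contra h
    exact hG2 j hk ⟨a, ⟨ha, h⟩, hka.symm⟩
  have hF3 : ∀ (a : AA M' m) (ha : a ∈ S.P) (j : Fin t.card), a ∈ F j ↔ (⟨T.Theta a, a, ha, rfl⟩ : T.K) ∈ G j := by
    intro a ha j
    constructor
    · rintro ⟨-, k, hk, hka⟩
      have h1 : k = ⟨T.Theta a, a, ha, rfl⟩ := Subtype.ext hka
      rw [← h1]
      exact hk
    · intro h
      exact ⟨ha, _, h, rfl⟩
  have hF4 : ∀ a, {j | a ∈ F j}.ncard ≤ d + 1 := by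
    intro a
    by_cases ha : a ∈ S.P
    · exact (fin_le _ fun j hj => (hF3 a ha j).1 hj).trans (hG4 _)
    · have h1 : {j | a ∈ F j} = ∅ := eq_empty_of_forall_notMem fun j hj => ha hj.1
      rw [h1, ncard_empty]
      exact Nat.zero_le _
  obtain ⟨O', hO'1, hO'2, hO'3, hO'4⟩ := swell F (fun j => O (idx j)) hF1 (fun j => hO1 _) hF2 hF4
  obtain ⟨τ, v, hv, hτ0, hτ1⟩ := S.exists_section (O := ⋃ j, O' j) (isOpen_iUnion hO'1) (by
    intro a ha
    have h1 : (⟨T.Theta a, a, ha, rfl⟩ : T.K) ∈ ⋃ j, G j := by rw [hG3]; exact mem_univ _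
    obtain ⟨j, hj⟩ := mem_iUnion.1 h1
    exact mem_iUnion.2 ⟨j, hO'2 j ((hF3 a ha j).2 hj)⟩)
  set σ : M' → AA M' m := fun x => (x, τ x, v x) with hσ
  have hσc : Continuous σ := continuous_id.prodMk (τ.continuous.prodMk hv)
  have hqc : IsClosedMap S.q := S.q_cont.isClosedMap
  have e1 : ∀ j z, z ∈ (S.q '' (σ ⁻¹' (O' j))ᶜ)ᶜ ↔ ∀ x, S.q x = z → σ x ∈ O' j := by
    intro j z
    constructor
    · intro h x hx
      by_contra h1
      exact h ⟨x, h1, hx⟩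
    · rintro h ⟨x, hx, hxz⟩
      exact hx (h x hxz)
  refine ⟨t.card, fun j => (S.q '' (σ ⁻¹' (O' j))ᶜ)ᶜ, fun j => ?_, ?_, fun j => ?_, fun z => ?_⟩
  · exact (hqc _ ((hO'1 j).preimage hσc).isClosed_compl).isOpen_compl
  · refine eq_univ_of_forall fun z => ?_
    obtain ⟨x, rfl⟩ := S.q_surj z
    by_cases hz : S.q x ∈ S.Z
    · have h1 : ∀ y, S.q y = S.q x → ∃ h : σ y ∈ S.P, (⟨T.Theta (σ y), σ y, h, rfl⟩ : T.K).1 = T.Theta (x, 0, v x) := by
        intro y hy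
        have h2 : σ y = (y, 0, v y) := by
          simp only [hσ]
          rw [hτ0 y (hy ▸ hz)]
        have h3 : σ y ∈ S.P := by
          rw [h2]
          exact S.mem_P_zero (hy ▸ hz) _
        refine ⟨h3, ?_⟩
        show T.Theta (σ y) = _
        rw [h2]
        exact T.Theta_zero_eq hy _ _
      obtain ⟨h4, h5⟩ := h1 x rfl
      have h6 : (⟨T.Theta (σ x), σ x, h4, rfl⟩ : T.K) ∈ ⋃ j, G j := by rw [hG3]; exact mem_univ _
      obtain ⟨j, hj⟩ := mem_iUnion.1 h6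
      refine mem_iUnion.2 ⟨j, (e1 j _).2 fun y hy => ?_⟩
      obtain ⟨h7, h8⟩ := h1 y hy
      refine hO'2 j ((hF3 _ h7 j).2 ?_)
      have h9 : (⟨T.Theta (σ y), σ y, h7, rfl⟩ : T.K) = ⟨T.Theta (σ x), σ x, h4, rfl⟩ := Subtype.ext (h8.trans h5.symm)
      rw [h9]
      exact hj
    · obtain ⟨j, hj⟩ := mem_iUnion.1 (hτ1 x)
      refine mem_iUnion.2 ⟨j, (e1 j _).2 fun y hy => ?_⟩
      have h1 : y = x := S.q_inj y x hy (hy ▸ hz)
      rw [h1]
      exact hj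
  · have ho : IsOpen (S.q '' (σ ⁻¹' (O' j))ᶜ)ᶜ := (hqc _ ((hO'1 j).preimage hσc).isClosed_compl).isOpen_compl
    rcases hO3 (idx j) with ⟨N, hN1, hN2⟩ | ⟨V, hV1, hV2⟩
    · refine hSm _ _ ho (fun z hz => ?_) hN1
      obtain ⟨x, rfl⟩ := S.q_surj z
      obtain ⟨h1, h2⟩ := hN2 _ (hO'3 j ((e1 j _).1 hz x rfl))
      refine ⟨⟨x, h2, rfl⟩, fun h3 => ?_⟩
      have h4 : (0 : unitInterval) < τ x := h1
      rw [hτ0 x h3] at h4
      exact lt_irrefl _ h4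
    · refine hSm _ _ ho (fun z hz => ?_) hV1
      obtain ⟨x, rfl⟩ := S.q_surj z
      exact hV2 _ (hO'3 j ((e1 j _).1 hz x rfl))
  · obtain ⟨x, rfl⟩ := S.q_surj z
    exact (fin_le _ fun j hj => (e1 j _).1 hj x rfl).trans (hO'4 (σ x))

theorem good_of [CompactSpace M] [T2Space M] [CompactSpace M'] [T2Space M'] [CompactSpace B] [T2Space B] [CompactSpace Q] [T2Space Q] (T : S.Ext) (Sm : Set M → Prop)
    (hf : ∀ b, ∃ N, IsOpen N ∧ S.f ⁻¹' {b} ⊆ N ∧ Sm (S.q '' N \ S.Z))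
    (hg : ∀ c, ∃ N, IsOpen N ∧ (∀ i, S.E i ∩ S.g i ⁻¹' {c} ⊆ N) ∧ Sm (S.q '' N \ S.Z)) (hM : ∀ z, ∃ V, IsOpen V ∧ z ∈ V ∧ Sm V) (k : T.K) :
    ∃ O : Set (AA M' m), IsOpen O ∧ (∀ a ∈ S.P, T.Theta a = k.1 → a ∈ O) ∧
      ((∃ N, Sm (S.q '' N \ S.Z) ∧ ∀ a ∈ O, 0 < a.2.1 ∧ a.1 ∈ N) ∨ ∃ V, Sm V ∧ ∀ a ∈ O, S.q a.1 ∈ V) := by
  obtain ⟨k, ⟨x0, t0, v0⟩, hp, rfl⟩ := k
  have eB : ∀ (a : AA M' m) (φ : C(B, ℝ)), T.Theta a (Sum.inl φ) = lamB (∑ i, (a.2.2 i : ℝ)) a.2.1 * φ (S.f a.1) := fun a φ => rfl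
  have eZ : ∀ (a : AA M' m) (φ : C(M, ℝ)), T.Theta a (Sum.inr (Sum.inr φ)) = lamZ (∑ i, (a.2.2 i : ℝ)) a.2.1 * φ (S.q a.1) := fun a φ => rfl
  have fB : ∀ a : AA M' m, T.Theta a (Sum.inl 1) = lamB (∑ i, (a.2.2 i : ℝ)) a.2.1 := fun a => by rw [eB, ContinuousMap.one_apply, mul_one]
  have fZ : ∀ a : AA M' m, T.Theta a (Sum.inr (Sum.inr 1)) = lamZ (∑ i, (a.2.2 i : ℝ)) a.2.1 := fun a => by rw [eZ, ContinuousMap.one_apply, mul_one]
  have ht : ∀ a : AA M' m, T.Theta a = T.Theta (x0, t0, v0) → a.2.1 = t0 := by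
    intro a ha
    have h1 := lamB_sub_lamZ (∑ i, (a.2.2 i : ℝ)) a.2.1
    have h2 := lamB_sub_lamZ (∑ i, (v0 i : ℝ)) t0
    rw [← fB, ← fZ, ha, fB, fZ] at h1
    exact Subtype.ext (by linarith)
  have oN : ∀ N : Set M', IsOpen N → IsOpen {a : AA M' m | 0 < a.2.1 ∧ a.1 ∈ N} := fun N hN =>
    (isOpen_lt continuous_const (continuous_fst.comp continuous_snd)).inter (hN.preimage continuous_fst)
  rcases eq_or_ne t0 0 with h0 | h0
  · -- the points over `z`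
    obtain ⟨V, hV1, hV2, hV3⟩ := hM (S.q x0)
    refine ⟨{a | S.q a.1 ∈ V}, hV1.preimage (S.q_cont.comp continuous_fst), fun a _ ha => ?_, Or.inr ⟨V, hV3, fun a ha => ha⟩⟩
    have h1 := ht a ha
    have ha' : T.Theta a = T.Theta (x0, t0, v0) := ha
    have h2 : S.q a.1 = S.q x0 := sep fun φ => by
      have h3 := congrFun ha' (Sum.inr (Sum.inr φ))
      obtain ⟨x, t, v⟩ := a
      have h4 : t = 0 := h1.trans h0
      rw [h4, h0, T.Theta_zero_Z, T.Theta_zero_Z] at h3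
      exact h3
    show S.q a.1 ∈ V
    rw [h2]
    exact hV2
  have h0' : 0 < t0 := lt_of_le_of_ne t0.2.1 (Ne.symm h0)
  have h0'' : (0 : ℝ) < t0 := h0'
  by_cases hB : lamB (∑ i, (v0 i : ℝ)) t0 = 0
  · have ht1 : t0 ≠ 1 := by
      rintro rfl
      have h1 := fB (x0, 1, v0)
      rw [T.Theta_one_B, ContinuousMap.one_apply] at h1
      have h2 : (1 : ℝ) = 0 := h1.trans hB
      exact one_ne_zero h2
    have ht1' : (t0 : ℝ) < 1 := lt_of_le_of_ne t0.2.2 fun h => ht1 (Subtype.ext h)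
    have key : ∀ a ∈ S.P, a.2.1 = t0 → ∃ i, a.1 ∈ S.E i ∧ a.2.2 = leg i (a.2.2 i) := by
      rintro a ((ha | ha) | ha) hat
      · exact absurd (hat.symm.trans ha) ht1
      · exact absurd (hat.symm.trans ha.2) h0
      · obtain ⟨i, h1, h2, -⟩ := mem_iUnion.1 ha
        exact ⟨i, h1, h2⟩
    obtain ⟨i0, hi0, hv0⟩ := key _ hp rfl
    have hi0' : x0 ∈ S.E i0 := hi0
    have hv0' : v0 = leg i0 (v0 i0) := hv0
    obtain ⟨N, hN1, hN2, hN3⟩ := hg (S.g i0 x0)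
    have hs : (v0 i0 : ℝ) = 1 := by
      rw [hv0', leg_sum] at hB
      unfold lamB at hB
      have h1 : 0 ≤ (v0 i0 : ℝ) * max (2 * (t0 : ℝ) - 1) 0 := mul_nonneg (v0 i0).2.1 (le_max_right _ _)
      have h2 : 0 ≤ (1 - (v0 i0 : ℝ)) * t0 := mul_nonneg (by linarith [(v0 i0).2.2]) h0''.le
      have h3 : (1 - (v0 i0 : ℝ)) * t0 = 0 := by linarith
      rcases mul_eq_zero.1 h3 with h4 | h4
      · linarith
      · exact absurd h4 h0''.ne'
    refine ⟨{a | 0 < a.2.1 ∧ a.1 ∈ N}, oN N hN1, fun a haP ha => ?_, Or.inl ⟨N, hN3, fun a ha => ha⟩⟩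
    have h1 := ht a ha
    obtain ⟨i, hi, hv⟩ := key a haP h1
    refine ⟨by rw [h1]; exact h0', hN2 i ⟨hi, ?_⟩⟩
    have h2 : a = (a.1, t0, leg i (a.2.2 i)) := by
      refine Prod.ext rfl (Prod.ext h1 hv)
    have h3 : T.Theta (a.1, t0, leg i (a.2.2 i)) = T.Theta (x0, t0, leg i0 (v0 i0)) := by
      rw [← h2, ← hv0']
      exact ha
    rw [T.Theta_leg hi, T.Theta_leg hi0'] at h3
    have h4 := Psi_inj h3
    refine h4.2.2.2.2.2.1 ?_
    rw [h4.2.1, hs]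
    unfold lamQ
    have : |2 * (t0 : ℝ) - 1| < 1 := abs_lt.2 ⟨by linarith, by linarith⟩
    have h5 : (1 : ℝ) - |2 * (t0 : ℝ) - 1| ≠ 0 := by linarith
    rw [mul_one]
    exact h5
  · obtain ⟨N, hN1, hN2, hN3⟩ := hf (S.f x0)
    refine ⟨{a | 0 < a.2.1 ∧ a.1 ∈ N}, oN N hN1, fun a haP ha => ?_, Or.inl ⟨N, hN3, fun a ha => ha⟩⟩
    have h1 := ht a ha
    have ha' : T.Theta a = T.Theta (x0, t0, v0) := ha
    refine ⟨by rw [h1]; exact h0', hN2 ?_⟩
    refine sep fun φ => ?_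
    have h2 := congrFun ha' (Sum.inl φ)
    have h3 := congrFun ha' (Sum.inl (1 : C(B, ℝ)))
    rw [fB, fB] at h3
    rw [eB, eB, h3] at h2
    exact mul_left_cancel₀ hB h2

end Modif

end Pool.Agent.H20.MD
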