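import Pool.Agent.H20.MD.Cov

/-!
# MD Sum: the countable closed sum theorem
-/

set_option autoImplicit false

open Set

universe u v w

namespace Pool.Agent.H20.MD

private theorem Sum_step {S : Type u} [TopologicalSpace S] [NormalSpace S] {A : Set S} (hA : IsClosed A) {d : ℕ} (hd : DimLE A d) {k : ℕ} (U : Fin k → Set S)
    (hU : ∀ j, IsOpen (U j)) (hc : (⋃ j, U j) = univ) :
    ∃ V : Fin k → Set S, (∀ j, IsOpen (V j)) ∧ (⋃ j, V j) = univ ∧ (∀ j, closure (V j) ⊆ U j) ∧ ∀ x ∈ A, {j | x ∈ closure (V j)}.ncard ≤ d + 1 := by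
  obtain ⟨W, hW1, hW2, hW3, hW4⟩ := shrink_on hA hd U hU hc
  obtain ⟨V, hV1, hV2, hV3⟩ := closure_shrink W hW1 hW3
  exact ⟨V, hV1, hV2, fun j => (hV3 j).trans (hW2 j), fun x hx => (fin_le _ fun j hj => hV3 j hj).trans (hW4 x hx)⟩

/-- a space which is a countable union of closed subsets of dimension at most `d` has dimension at most `d` -/
theorem sum_thm {S : Type u} [TopologicalSpace S] [NormalSpace S] {d : ℕ} (F : ℕ → Set S) (hF : ∀ i, IsClosed (F i)) (hd : ∀ i, DimLE (F i) d)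
    (hc : (⋃ i, F i) = univ) : DimLE S d := by
  classical
  intro k U hU hcU
  choose step h1 h2 h3 h4 using fun (i : ℕ) (W : {W : Fin k → Set S // (∀ j, IsOpen (W j)) ∧ (⋃ j, W j) = univ}) => Sum_step (hF i) (hd i) W.1 W.2.1 W.2.2
  let seq : ℕ → {W : Fin k → Set S // (∀ j, IsOpen (W j)) ∧ (⋃ j, W j) = univ} := fun n =>
    Nat.rec ⟨U, hU, hcU⟩ (fun i W => ⟨step i W, h1 i W, h2 i W⟩) n
  have e1 : ∀ n, (seq (n + 1)).1 = step n (seq n) := fun n => rfl
  have e2 : ∀ n j, closure ((seq (n + 1)).1 j) ⊆ (seq n).1 j := by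
    intro n j
    rw [e1]
    exact h3 n (seq n) j
  have hanti : ∀ j, Antitone fun n => (seq n).1 j := fun j => antitone_nat_of_succ_le fun n => subset_closure.trans (e2 n j)
  obtain ⟨V, hV1, hV2, hV3, hV4⟩ := swell (n := d + 1) (fun j => ⋂ n, closure ((seq (n + 1)).1 j)) U (fun j => isClosed_iInter fun n => isClosed_closure) hU
    (fun j => (iInter_subset _ 0).trans (e2 0 j)) (fun x => by
      have hx : x ∈ ⋃ i, F i := by rw [hc]; exact mem_univ _
      obtain ⟨i, hi⟩ := mem_iUnion.1 hx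
      refine (fin_le _ ?_).trans (h4 i (seq i) x hi)
      intro j hj
      exact mem_iInter.1 hj i)
  refine ⟨V, hV1, hV3, ?_, hV4⟩
  refine eq_univ_of_forall fun x => ?_
  -- some index is good for all `n`
  have h5 : ∃ j, ∀ n, x ∈ (seq n).1 j := by
    by_contra hcon
    push Not at hcon
    choose m hm using hcon
    have h6 : x ∈ ⋃ j, (seq (Finset.univ.sup m)).1 j := by rw [(seq _).2.2]; exact mem_univ _
    obtain ⟨j, hj⟩ := mem_iUnion.1 h6
    exact hm j (hanti j (Finset.le_sup (Finset.mem_univ j)) hj)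
  obtain ⟨j, hj⟩ := h5
  exact mem_iUnion.2 ⟨j, hV2 j (mem_iInter.2 fun n => subset_closure (hj (n + 1)))⟩

/-- the sum theorem for a countable index type -/
theorem sum_thm' {S : Type u} [TopologicalSpace S] [NormalSpace S] {d : ℕ} {ι : Type} [Countable ι] (F : ι → Set S) (hF : ∀ i, IsClosed (F i))
    (hd : ∀ i, DimLE (F i) d) (hc : (⋃ i, F i) = univ) : DimLE S d := by
  rcases isEmpty_or_nonempty ι with h | h
  · intro k U hU hcU
    refine ⟨U, hU, fun j => subset_rfl, hcU, fun x => ?_⟩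
    have hx : x ∈ ⋃ i, F i := by rw [hc]; exact mem_univ _
    obtain ⟨i, -⟩ := mem_iUnion.1 hx
    exact (h.false i).elim
  · obtain ⟨g, hg⟩ := exists_surjective_nat ι
    refine sum_thm (fun n => F (g n)) (fun n => hF _) (fun n => hd _) ?_
    refine eq_univ_of_forall fun x => ?_
    have hx : x ∈ ⋃ i, F i := by rw [hc]; exact mem_univ _
    obtain ⟨i, hi⟩ := mem_iUnion.1 hx
    obtain ⟨n, rfl⟩ := hg i
    exact mem_iUnion.2 ⟨n, hi⟩

end Pool.Agent.H20.MD
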